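import Pool.Agent.MP_c1dca2_ag.SC4.X1

/-!
# [SC4-X2] A sieve with infinitely many primes gives density zero

Proof. Let `n = Fintype.card ι`. For a finite `T ⊆ 𝒫`, `M = ∏_{p ∈ T} p^2`,
`A = {c mod M | ∀ p ∈ T, c mod p^2 ∈ Sp p}`: by `crt_count`,
`#A = ∏ #(Sp p) ≤ ∏ (1 - (p-1)/p^2) (p^2)^n = M^n ∏_{p ∈ T} (1 - (p-1)/p^2)`. By `box_count`, the
number `a_N` of `c ∈ X` with `|c i| ≤ N` is `≤ #A ((2N+1)/M + 1)^n`
(`c ∈ X` has class mod `M` in `A`: `ZMod.cast_intCast` since `p^2 ∣ M`), so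
`a_N / (2N+1)^n ≤ #A (1/M + 1/(2N+1))^n → #A / M^n ≤ ∏_{p ∈ T} (1 - (p-1)/p^2)
≤ ∏ (1 - 1/(2p)) ≤ exp(- (1/2) Σ_{p ∈ T} 1/p)` (`(p-1)/p^2 ≥ 1/(2p)` as `p ≥ 2`;
`1 - x ≤ exp(-x)`, `Real.one_sub_le_exp_neg`). As `Σ_{p ∈ 𝒫} 1/p = ∞` the finite sums are unbounded
(`summable_of_sum_le` contraposed), so for every `ε > 0` a finite `T` has
`exp(-(1/2) Σ_T 1/p) < ε`, and `a_N/(2N+1)^n < 2 ε` eventually.
(If `ι` is empty then `n = 0`: `#(Sp p) ≤ 1 - (p-1)/p^2 < 1` for `p ∈ 𝒫`, and the same argument works.)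
-/

set_option autoImplicit false

open Filter Topology

namespace SC4

/-- The count of `X` in a box, for one finite set of primes. -/
theorem X2_bound {ι : Type} [Fintype ι] (T : Finset ℕ) (hT : ∀ p ∈ T, p.Prime)
    (Sp : ∀ p : ℕ, Set (ι → ZMod (p ^ 2)))
    (hS : ∀ p ∈ T, (Nat.card (Sp p) : ℝ) ≤
      (1 - ((p : ℝ) - 1) / (p : ℝ) ^ 2) * ((p : ℝ) ^ 2) ^ (Fintype.card ι))
    (X : Set (ι → ℤ)) (hX : ∀ c ∈ X, ∀ p ∈ T, (fun i => (c i : ZMod (p ^ 2))) ∈ Sp p) (N : ℕ) :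
    (Nat.card {c : ι → ℤ // (∀ i, |c i| ≤ N) ∧ c ∈ X} : ℝ) / (2 * N + 1) ^ (Fintype.card ι) ≤
      Real.exp (-(∑ p ∈ T, ((p : ℝ))⁻¹) / 2) *
        (1 + ((∏ p ∈ T, p ^ 2 : ℕ) : ℝ) / (2 * N + 1)) ^ (Fintype.card ι) := by
  classical
  set M : ℕ := ∏ p ∈ T, p ^ 2 with hMdef
  have hM : 0 < M := Finset.prod_pos fun p hp => pow_pos (hT p hp).pos 2
  haveI : NeZero M := ⟨hM.ne'⟩
  let A : Set (ι → ZMod M) := {c | ∀ p ∈ T, (fun i => ((c i).cast : ZMod (p ^ 2))) ∈ Sp p}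
  have hA : Nat.card A = ∏ p ∈ T, Nat.card (Sp p) := crt_count T hT Sp
  set n := Fintype.card ι with hn
  have hMr : (0 : ℝ) < M := by exact_mod_cast hM
  have hA2 : (Nat.card A : ℝ) ≤ Real.exp (-(∑ p ∈ T, ((p : ℝ))⁻¹) / 2) * (M : ℝ) ^ n := by
    rw [hA]
    push_cast
    have h1 : ∀ p ∈ T, (Nat.card (Sp p) : ℝ) ≤
        Real.exp (-((p : ℝ))⁻¹ / 2) * ((p : ℝ) ^ 2) ^ n := by
      intro p hp
      refine le_trans (hS p hp) (mul_le_mul_of_nonneg_right ?_ (by positivity))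
      have h2 : (2 : ℝ) ≤ p := by exact_mod_cast (hT p hp).two_le
      have h3 : ((p : ℝ))⁻¹ / 2 ≤ ((p : ℝ) - 1) / (p : ℝ) ^ 2 := by
        rw [inv_eq_one_div, div_div, div_le_div_iff₀ (by positivity) (by positivity)]
        nlinarith
      have h4 := Real.one_sub_le_exp_neg (((p : ℝ))⁻¹ / 2)
      have h5 : -((p : ℝ))⁻¹ / 2 = -(((p : ℝ))⁻¹ / 2) := by ring
      rw [h5]
      linarith
    calc ∏ p ∈ T, (Nat.card (Sp p) : ℝ) ≤ ∏ p ∈ T, (Real.exp (-((p : ℝ))⁻¹ / 2) *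
          ((p : ℝ) ^ 2) ^ n) := Finset.prod_le_prod (fun p _ => by positivity) h1
      _ = Real.exp (-(∑ p ∈ T, ((p : ℝ))⁻¹) / 2) * (M : ℝ) ^ n := by
        rw [Finset.prod_mul_distrib, ← Real.exp_sum, hMdef]
        congr 1
        · congr 1
          rw [← Finset.sum_div, ← Finset.sum_neg_distrib]
        · rw [Finset.prod_pow]
          push_cast
          rfl
  have h6 : Nat.card {c : ι → ℤ // (∀ i, |c i| ≤ N) ∧ c ∈ X} ≤
      Nat.card {c : ι → ℤ // (∀ i, |c i| ≤ N) ∧ (fun i => (c i : ZMod M)) ∈ A} := by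
    have hfin : {c : ι → ℤ | (∀ i, |c i| ≤ N) ∧ (fun i => (c i : ZMod M)) ∈ A}.Finite := by
      refine Set.Finite.subset (Fintype.piFinset
        (fun _ : ι => Finset.Icc (-(N : ℤ)) N)).finite_toSet ?_
      intro c hc
      simp only [Finset.mem_coe, Fintype.mem_piFinset, Finset.mem_Icc]
      intro i
      exact abs_le.1 (hc.1 i)
    refine Set.ncard_le_ncard (s := {c : ι → ℤ | (∀ i, |c i| ≤ N) ∧ c ∈ X}) ?_ hfin
    intro c hc
    refine ⟨hc.1, ?_⟩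
    intro p hp
    have h7 : (fun i => (((c i : ZMod M)).cast : ZMod (p ^ 2))) =
        (fun i => (c i : ZMod (p ^ 2))) := by
      funext i
      exact ZMod.cast_intCast (Finset.dvd_prod_of_mem (fun p => p ^ 2) hp) (c i)
    show (fun i => (((c i : ZMod M)).cast : ZMod (p ^ 2))) ∈ Sp p
    rw [h7]
    exact hX c hc.2 p hp
  have h8 := box_count M hM A N
  have hN : (0 : ℝ) < 2 * N + 1 := by positivity
  rw [div_le_iff₀ (by positivity)]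
  calc (Nat.card {c : ι → ℤ // (∀ i, |c i| ≤ N) ∧ c ∈ X} : ℝ)
      ≤ (Nat.card {c : ι → ℤ // (∀ i, |c i| ≤ N) ∧ (fun i => (c i : ZMod M)) ∈ A} : ℝ) := by
        exact_mod_cast h6
    _ ≤ Nat.card A * ((2 * N + 1) / M + 1) ^ n := h8
    _ ≤ (Real.exp (-(∑ p ∈ T, ((p : ℝ))⁻¹) / 2) * (M : ℝ) ^ n) * ((2 * N + 1) / M + 1) ^ n :=
        mul_le_mul_of_nonneg_right hA2 (by positivity)
    _ = Real.exp (-(∑ p ∈ T, ((p : ℝ))⁻¹) / 2) * (1 + (M : ℝ) / (2 * N + 1)) ^ n *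
        (2 * N + 1) ^ n := by
        rw [mul_assoc, mul_assoc, ← mul_pow, ← mul_pow]
        congr 2
        field_simp

theorem density_zero {ι : Type} [Fintype ι] (Q : Set ℕ) (hQ : ∀ p ∈ Q, p.Prime)
    (hsum : ¬ Summable (fun p : Q => ((p : ℕ) : ℝ)⁻¹))
    (Sp : ∀ p : ℕ, Set (ι → ZMod (p ^ 2)))
    (hS : ∀ p ∈ Q, (Nat.card (Sp p) : ℝ) ≤
      (1 - ((p : ℝ) - 1) / (p : ℝ) ^ 2) * ((p : ℝ) ^ 2) ^ (Fintype.card ι))
    (X : Set (ι → ℤ)) (hX : ∀ c ∈ X, ∀ p ∈ Q, (fun i => (c i : ZMod (p ^ 2))) ∈ Sp p) :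
    Tendsto (fun N : ℕ => (Nat.card {c : ι → ℤ // (∀ i, |c i| ≤ N) ∧ c ∈ X} : ℝ) /
      (2 * N + 1) ^ (Fintype.card ι)) atTop (𝓝 0) := by
  classical
  rw [Metric.tendsto_atTop]
  intro ε hε
  -- choose `B` with `exp (-B/2) < ε / 2`
  obtain ⟨T, hTQ, hT⟩ : ∃ T : Finset ℕ, (∀ p ∈ T, p ∈ Q) ∧
      Real.exp (-(∑ p ∈ T, ((p : ℝ))⁻¹) / 2) < ε / 2 := by
    by_contra hcon
    push Not at hcon
    apply hsum
    refine summable_of_sum_le (c := -2 * Real.log (ε / 2)) (fun p => by positivity) ?_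
    intro u
    have h1 := hcon (u.map (Function.Embedding.subtype _)) (by
      intro p hp
      rw [Finset.mem_map] at hp
      obtain ⟨q, _, rfl⟩ := hp
      exact q.2)
    rw [Finset.sum_map] at h1
    have h2 := Real.log_le_log (by positivity) h1
    rw [Real.log_exp] at h2
    have h3 : ∑ x ∈ u, ((Function.Embedding.subtype (fun x => x ∈ Q) x : ℕ) : ℝ)⁻¹ =
        ∑ x ∈ u, ((x : ℕ) : ℝ)⁻¹ := rfl
    rw [h3] at h2
    linarith
  have hTp : ∀ p ∈ T, p.Prime := fun p hp => hQ p (hTQ p hp)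
  set M : ℕ := ∏ p ∈ T, p ^ 2 with hMdef
  have hlim : Tendsto (fun N : ℕ => Real.exp (-(∑ p ∈ T, ((p : ℝ))⁻¹) / 2) *
        (1 + (M : ℝ) / (2 * N + 1)) ^ (Fintype.card ι)) atTop
      (𝓝 (Real.exp (-(∑ p ∈ T, ((p : ℝ))⁻¹) / 2) * (1 + 0) ^ (Fintype.card ι))) := by
    refine Tendsto.const_mul _ (Tendsto.pow (Tendsto.const_add _ ?_) _)
    refine Tendsto.div_atTop tendsto_const_nhds ?_
    refine tendsto_atTop_add_const_right _ _ ?_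
    exact Tendsto.const_mul_atTop (by norm_num) tendsto_natCast_atTop_atTop
  rw [add_zero, one_pow, mul_one] at hlim
  have hev := (hlim.eventually (gt_mem_nhds hT))
  rw [Filter.eventually_atTop] at hev
  obtain ⟨N₀, hN₀⟩ := hev
  refine ⟨N₀, fun N hN => ?_⟩
  rw [Real.dist_eq, sub_zero, abs_of_nonneg (by positivity)]
  have h1 := X2_bound T hTp Sp (fun p hp => hS p (hTQ p hp)) X
    (fun c hc p hp => hX c hc p (hTQ p hp)) N
  have h2 := hN₀ N hN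
  linarith

end SC4
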