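import Mathlib

/-!
# [SC4-X3] Classes mod `p^2` of the algebraic integers with odd valuation one

`k` a number field, `b` a `ℤ`-basis of `𝓞 k`, `P` an ideal of norm a prime `p`. Let
`π : (ι → ℤ) → 𝓞 k`, `c ↦ Σ c i b i` (an additive isomorphism, `b.equivFun.symm`).
`A` = the set of the classes mod `p^2` of the `c` with NOT (`π c ∈ P` and `π c ∉ P^2`).

Proof. `p ∈ P` (`Ideal.absNorm_mem`), so `p^2 ∈ P^2`, and the conditions `π c ∈ P`, `π c ∈ P^2`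
depend only on `c mod p^2`. The additive group `(ι → ZMod (p^2))` is the quotient of `ι → ℤ` by
`p^2`; let `H₁ ⊇ H₂` be the images of `π⁻¹ P`, `π⁻¹ (P^2)`: subgroups of index
`|𝓞 k / P| = p` and `|𝓞 k / P^2| = p^2` (`Ideal.absNorm (P^2) = p^2`), so with `q = (p^2)^n =
#(ι → ZMod (p^2))`, `#H₁ = q/p`, `#H₂ = q/p^2`. `A` is the complement of `H₁ \ H₂`, so
`#A = q - (q/p - q/p^2) = q (1 - 1/p + 1/p^2) = q (1 - (p-1)/p^2)`.
(Index: the surjection `(ι → ℤ) → 𝓞 k → 𝓞 k / P` kills `p^2 (ι → ℤ)`, hence factors through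
`(ι → ZMod (p^2)) → 𝓞 k / P`, surjective with kernel `H₁`: `#(ι → ZMod (p^2)) = #H₁ · p`; same for
`P^2`. Only the inequality `#A ≤ ...` is needed.)
-/

set_option autoImplicit false

open NumberField

namespace SC4

theorem X3_hom {k : Type} [Field k] [NumberField k] {ι : Type} [Fintype ι]
    (b : Module.Basis ι ℤ (𝓞 k)) (m : ℕ) (I : Ideal (𝓞 k)) (hm : ((m : ℕ) : 𝓞 k) ∈ I) :
    ∃ φ : (ι → ZMod m) →+ 𝓞 k ⧸ I,
      (∀ c : ι → ℤ, φ (fun i => (c i : ZMod m)) = Ideal.Quotient.mk I (∑ i, c i • b i)) ∧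
      Function.Surjective φ := by
  classical
  have h0 : (Int.castAddHom (𝓞 k ⧸ I)) (m : ℤ) = 0 := by
    simp only [Int.coe_castAddHom, Int.cast_natCast]
    rw [← map_natCast (Ideal.Quotient.mk I)]
    exact Ideal.Quotient.eq_zero_iff_mem.2 hm
  let g : ZMod m →+ 𝓞 k ⧸ I := ZMod.lift m ⟨Int.castAddHom (𝓞 k ⧸ I), h0⟩
  have hg : ∀ n : ℤ, g (n : ZMod m) = (n : 𝓞 k ⧸ I) := by
    intro n
    simp [g]
  let φ : (ι → ZMod m) →+ 𝓞 k ⧸ I :=
    { toFun := fun x => ∑ i, g (x i) * Ideal.Quotient.mk I (b i)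
      map_zero' := by simp
      map_add' := by
        intro x y
        simp only [Pi.add_apply, map_add, add_mul, Finset.sum_add_distrib] }
  have hφ : ∀ c : ι → ℤ, φ (fun i => (c i : ZMod m)) = Ideal.Quotient.mk I (∑ i, c i • b i) := by
    intro c
    change ∑ i, g ((c i : ZMod m)) * Ideal.Quotient.mk I (b i) = _
    rw [map_sum]
    refine Finset.sum_congr rfl (fun i _ => ?_)
    rw [hg, zsmul_eq_mul, map_mul, map_intCast]
  refine ⟨φ, hφ, ?_⟩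
  intro r
  obtain ⟨y, rfl⟩ := Ideal.Quotient.mk_surjective r
  refine ⟨fun i => ((b.repr y i : ℤ) : ZMod m), ?_⟩
  rw [hφ, b.sum_repr]

theorem card_class {k : Type} [Field k] [NumberField k] {ι : Type} [Fintype ι]
    (b : Module.Basis ι ℤ (𝓞 k)) (p : ℕ) (hp : p.Prime) (P : Ideal (𝓞 k))
    (hP : Ideal.absNorm P = p) :
    ∃ A : Set (ι → ZMod (p ^ 2)),
      (Nat.card A : ℝ) ≤
        (1 - ((p : ℝ) - 1) / (p : ℝ) ^ 2) * ((p : ℝ) ^ 2) ^ (Fintype.card ι) ∧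
      ∀ c : ι → ℤ, ¬ ((∑ i, c i • b i) ∈ P ∧ (∑ i, c i • b i) ∉ P ^ 2) →
        (fun i => (c i : ZMod (p ^ 2))) ∈ A := by
  classical
  have : NeZero (p ^ 2) := ⟨pow_ne_zero 2 hp.ne_zero⟩
  have hpP : ((p : ℕ) : 𝓞 k) ∈ P := by
    have := Ideal.absNorm_mem P
    rwa [hP] at this
  have h1 : (((p ^ 2 : ℕ)) : 𝓞 k) ∈ P := by
    rw [Nat.cast_pow]
    exact Ideal.pow_mem_of_mem P hpP 2 (by norm_num)
  have h2 : (((p ^ 2 : ℕ)) : 𝓞 k) ∈ P ^ 2 := by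
    rw [Nat.cast_pow]
    exact Ideal.pow_mem_pow hpP 2
  obtain ⟨φ₁, hφ₁, hs₁⟩ := X3_hom b (p ^ 2) P h1
  obtain ⟨φ₂, hφ₂, hs₂⟩ := X3_hom b (p ^ 2) (P ^ 2) h2
  have hcast : ∀ x : ι → ZMod (p ^ 2), ∃ c : ι → ℤ, (fun i => (c i : ZMod (p ^ 2))) = x := by
    intro x
    choose c hc using fun i => ZMod.intCast_surjective (x i)
    exact ⟨c, funext hc⟩
  have hle : φ₂.ker ≤ φ₁.ker := by
    intro x hx
    obtain ⟨c, rfl⟩ := hcast x
    rw [AddMonoidHom.mem_ker, hφ₂, Ideal.Quotient.eq_zero_iff_mem] at hx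
    rw [AddMonoidHom.mem_ker, hφ₁, Ideal.Quotient.eq_zero_iff_mem]
    exact Ideal.pow_le_self (by norm_num) hx
  have hq : Nat.card (ι → ZMod (p ^ 2)) = (p ^ 2) ^ Fintype.card ι := by
    rw [Nat.card_eq_fintype_card, Fintype.card_fun, ZMod.card]
  have c1 : Nat.card φ₁.ker * p = (p ^ 2) ^ Fintype.card ι := by
    have e1 := φ₁.ker.card_mul_index
    rw [AddSubgroup.index_ker, AddMonoidHom.range_eq_top.2 hs₁, AddSubgroup.card_top,
      ← Submodule.cardQuot_apply, ← Ideal.absNorm_apply, hP, hq] at e1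
    exact e1
  have c2 : Nat.card φ₂.ker * p ^ 2 = (p ^ 2) ^ Fintype.card ι := by
    have e1 := φ₂.ker.card_mul_index
    rw [AddSubgroup.index_ker, AddMonoidHom.range_eq_top.2 hs₂, AddSubgroup.card_top,
      ← Submodule.cardQuot_apply, ← Ideal.absNorm_apply, map_pow, hP, hq] at e1
    exact e1
  let A : Set (ι → ZMod (p ^ 2)) := ((φ₁.ker : Set (ι → ZMod (p ^ 2))) \ φ₂.ker)ᶜ
  refine ⟨A, ?_, ?_⟩
  · have e1 : A.ncard + ((φ₁.ker : Set (ι → ZMod (p ^ 2))) \ φ₂.ker).ncard =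
        (p ^ 2) ^ Fintype.card ι := by
      rw [← hq, add_comm]
      exact Set.ncard_add_ncard_compl _
    have e2 : ((φ₁.ker : Set (ι → ZMod (p ^ 2))) \ φ₂.ker).ncard +
        (φ₂.ker : Set (ι → ZMod (p ^ 2))).ncard = (φ₁.ker : Set (ι → ZMod (p ^ 2))).ncard :=
      Set.ncard_sdiff_add_ncard_of_subset (by exact_mod_cast hle)
    have e3 : (φ₁.ker : Set (ι → ZMod (p ^ 2))).ncard = Nat.card φ₁.ker := rfl
    have e4 : (φ₂.ker : Set (ι → ZMod (p ^ 2))).ncard = Nat.card φ₂.ker := rfl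
    have e5 : Nat.card A = A.ncard := rfl
    rw [e5]
    have hp0 : (0 : ℝ) < p := by exact_mod_cast hp.pos
    have r1 : (A.ncard : ℝ) + (((φ₁.ker : Set (ι → ZMod (p ^ 2))) \ φ₂.ker).ncard : ℝ) =
        ((p : ℝ) ^ 2) ^ Fintype.card ι := by exact_mod_cast e1
    have r2 : (((φ₁.ker : Set (ι → ZMod (p ^ 2))) \ φ₂.ker).ncard : ℝ) +
        (Nat.card φ₂.ker : ℝ) = (Nat.card φ₁.ker : ℝ) := by
      rw [← e3, ← e4]; exact_mod_cast e2
    have r3 : (Nat.card φ₁.ker : ℝ) * p = ((p : ℝ) ^ 2) ^ Fintype.card ι := by exact_mod_cast c1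
    have r4 : (Nat.card φ₂.ker : ℝ) * (p : ℝ) ^ 2 = ((p : ℝ) ^ 2) ^ Fintype.card ι := by
      exact_mod_cast c2
    have r5 : (Nat.card φ₁.ker : ℝ) = ((p : ℝ) ^ 2) ^ Fintype.card ι / p := by
      rw [eq_div_iff hp0.ne']; exact r3
    have r6 : (Nat.card φ₂.ker : ℝ) = ((p : ℝ) ^ 2) ^ Fintype.card ι / (p : ℝ) ^ 2 := by
      rw [eq_div_iff (by positivity)]; exact r4
    have r7 : (A.ncard : ℝ) = ((p : ℝ) ^ 2) ^ Fintype.card ι -
        (((p : ℝ) ^ 2) ^ Fintype.card ι / p - ((p : ℝ) ^ 2) ^ Fintype.card ι / (p : ℝ) ^ 2) := by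
      rw [← r5, ← r6]; linarith
    rw [r7]
    apply le_of_eq
    field_simp
  · intro c hc hmem
    apply hc
    obtain ⟨m1, m2⟩ := hmem
    have m1' : φ₁ (fun i => (c i : ZMod (p ^ 2))) = 0 := m1
    have m2' : ¬ φ₂ (fun i => (c i : ZMod (p ^ 2))) = 0 := m2
    rw [hφ₁, Ideal.Quotient.eq_zero_iff_mem] at m1'
    rw [hφ₂, Ideal.Quotient.eq_zero_iff_mem] at m2'
    exact ⟨m1', m2'⟩

end SC4
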