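import Mathlib

/-!
# [SC4-X4] The valuation ring of a prime of a number field

Proof. Let `v` be the `HeightOneSpectrum (𝓞 K)` of `P` and `A` the valuation subring of
`v.valuation K`. `A` is a DVR, its residue field is
`𝓞 K / P` (the map `𝓞 K → A / m` is surjective
with kernel `P`), of cardinality `absNorm P` (finite). For `x ∈ 𝓞 K`: `x ∈ A`;
`A.valuation x < 1` iff `v.valuation x < 1` iff `x ∈ P`. If `x ∈ P`, `x ∉ P^2` then `v.valuation x =
exp (-1)`, which is not a square in `ℤᵐ⁰`.
-/

set_option autoImplicit false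

open NumberField IsLocalRing

namespace SC4

theorem exists_val {K : Type} [Field K] [NumberField K] (P : Ideal (𝓞 K)) (hP : P.IsPrime)
    (hP0 : P ≠ ⊥) :
    ∃ A : ValuationSubring K, IsDiscreteValuationRing A ∧ Finite (ResidueField A) ∧
      Nat.card (ResidueField A) = Ideal.absNorm P ∧ (∀ x : 𝓞 K, (x : K) ∈ A) ∧
      (∀ x : 𝓞 K, A.valuation (x : K) < 1 ↔ x ∈ P) ∧
      ∀ x : 𝓞 K, x ∈ P → x ∉ P ^ 2 → ∀ b : K, A.valuation (x : K) ≠ A.valuation b ^ 2 := by
  let v : IsDedekindDomain.HeightOneSpectrum (𝓞 K) := ⟨P, hP, hP0⟩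
  let A : ValuationSubring K := (v.valuation K).valuationSubring
  have hequiv : (v.valuation K).IsEquiv A.valuation :=
    (v.valuation K).isEquiv_valuation_valuationSubring
  have hmemA : ∀ x : 𝓞 K, (x : K) ∈ A := by
    intro x
    rw [Valuation.mem_valuationSubring_iff]
    exact v.valuation_le_one x
  have hlt : ∀ x : 𝓞 K, A.valuation (x : K) < 1 ↔ x ∈ P := by
    intro x
    rw [← hequiv.lt_one_iff_lt_one]
    exact v.valuation_lt_one_iff_mem x
  have hdvr : IsDiscreteValuationRing A :=
    inferInstanceAs (IsDiscreteValuationRing (v.valuation K).integer)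
  let f : 𝓞 K →+* A :=
    { toFun := fun x => ⟨(x : K), hmemA x⟩
      map_one' := by apply Subtype.ext; simp
      map_mul' := fun x y => by apply Subtype.ext; simp
      map_zero' := by apply Subtype.ext; simp
      map_add' := fun x y => by apply Subtype.ext; simp }
  let g : 𝓞 K →+* ResidueField A := (IsLocalRing.residue A).comp f
  have hsurj : Function.Surjective g := by
    intro y
    obtain ⟨a, rfl⟩ := IsLocalRing.residue_surjective y
    have ha : v.valuation K (a : K) ≤ 1 := (Valuation.mem_valuationSubring_iff _ _).mp a.2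
    obtain ⟨b, hb⟩ := v.exists_valuation_sub_lt_of_integer ha 1
    refine ⟨b, ?_⟩
    change IsLocalRing.residue A (f b) = IsLocalRing.residue A a
    rw [← sub_eq_zero, ← map_sub, IsLocalRing.residue_eq_zero_iff, A.valuation_lt_one_iff,
      ← hequiv.lt_one_iff_lt_one]
    rw [Units.val_one] at hb
    exact hb
  have hker : RingHom.ker g = P := by
    ext x
    rw [RingHom.mem_ker]
    change IsLocalRing.residue A (f x) = 0 ↔ _
    rw [IsLocalRing.residue_eq_zero_iff, A.valuation_lt_one_iff]
    exact hlt x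
  have hcard : Nat.card (ResidueField A) = Ideal.absNorm P := by
    rw [Ideal.absNorm_apply, Submodule.cardQuot_apply, ← hker]
    exact (Nat.card_congr (RingHom.quotientKerEquivOfSurjective hsurj).toEquiv).symm
  have hfin : Finite (ResidueField A) := by
    apply Nat.finite_of_card_ne_zero
    rw [hcard, Ne, Ideal.absNorm_eq_zero_iff]
    exact hP0
  refine ⟨A, hdvr, hfin, hcard, hmemA, hlt, ?_⟩
  intro x hx hx2 b hb
  have h1 : v.valuation K (x : K) = v.valuation K b ^ 2 := by
    rw [← map_pow] at hb ⊢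
    exact hequiv.eq_iff.mpr hb
  have h2 : v.valuation K (x : K) = v.intValuation x := v.valuation_of_algebraMap x
  have h3 : v.intValuation x ≤ WithZero.exp (-((1 : ℕ) : ℤ)) := by
    rw [v.intValuation_le_pow_iff_mem]
    simpa using hx
  have h4 : ¬ v.intValuation x ≤ WithZero.exp (-((2 : ℕ) : ℤ)) := by
    rw [v.intValuation_le_pow_iff_mem]
    exact hx2
  rw [← h2, h1] at h3 h4
  have hb0 : v.valuation K b ≠ 0 := by
    intro h0
    rw [h0] at h4
    simp at h4
  obtain ⟨n, hn⟩ : ∃ n : ℤ, v.valuation K b = WithZero.exp n :=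
    ⟨_, (WithZero.exp_log hb0).symm⟩
  rw [hn, ← WithZero.exp_nsmul] at h3 h4
  rw [WithZero.exp_le_exp] at h3 h4
  simp only [nsmul_eq_mul] at h3 h4
  push_cast at h3 h4
  omega

end SC4
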