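import Pool.Agent.MP_c1dca2_ag.SC4.Base

/-!
# [SC4-X5] Good primes of a polynomial, roots mod `P` and Frobenius

Proof. Let `r_1, …, r_n ∈ N` be the roots of `f` (distinct, `f = lc ∏ (X - r_i)` over `N`), and
`u f + v f' = 1`, `u, v ∈ k[X]`. There is a nonzero `D ∈ ℤ` such that `D r_i` are integral, and
`D · (coefficients of f, u, v)` and `D · lc` lie in `𝓞 k`
(`IsLocalization.exist_integer_multiples_of_finset`, or `exists_integral_multiple`). Let
`Δ = D · (D lc) · ∏_{i ≠ j} (D r_i - D r_j) ∈ 𝓞 N`, nonzero; only finitely many primes `R` of `𝓞 N`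
contain `Δ`; let `B` be the set of their traces `R ∩ 𝓞 k`. Let `P ∉ B` be a nonzero prime, `A` as in
the statement. Some prime `R` lies above `P` (integrality), so `Δ ∉ R`, whence `D ∉ P`,
`D lc ∉ P`: so `A.valuation D = 1` (`≤ 1` as `D ∈ A`, not `< 1` as `D ∉ P`), `A.valuation lc = 1`.
So the coefficients of `f, u, v` lie in `A`: `f = g.map A.subtype` with `g ∈ A[X]`
(`Polynomial.lifts`/ `toSubring`), reduction of the same degree (leading coefficient a unit), and
reducing `u f + v f' = 1` shows that `ḡ` is separable.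
Let now `p = #(ResidueField A)` be prime, `a` a root of `ḡ`, `R` above `P`, `φ` with
`φ x ≡ x^p (mod R)`. The ring map `𝓞 k → ResidueField A` has kernel `P`; its image contains the
prime field, which is everything as `p` is prime; so `a` is the class of an `x ∈ 𝓞 k`, and
`𝓞 k / P` has `p` elements, `y^p ≡ y (mod P)` for `y ∈ 𝓞 k`. `f(x) = g(x)` has `A.valuation < 1`.
`y := D^(n+1) f(x) = (D lc) ∏ (D x - D r_i)` lies in `𝓞 k` (the right side is integral, the left
side in `k`), `A.valuation y < 1`, so `y ∈ P ⊆ R`; `R` prime, `D lc ∉ R`: some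
`D x - D r_i ∈ R`. Then `φ(D r_i) ≡ (D r_i)^p ≡ (D x)^p ≡ D x ≡ D r_i (mod R)`, and
`φ(D r_i) = D r_j` with `r_j = φ r_i` a root of `f`. If `r_j ≠ r_i` then
`D r_j - D r_i` divides `Δ` and lies in `R`: contradiction. So `φ r_i = r_i`.
-/

set_option autoImplicit false

open NumberField IsLocalRing Polynomial

namespace SC4

/-- finitely many primes contain a given nonzero element -/
theorem X5_fin {K : Type} [Field K] [NumberField K] (z : 𝓞 K) (hz : z ≠ 0) :
    {R : Ideal (𝓞 K) | R.IsPrime ∧ z ∈ R}.Finite := by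
  have h1 : (Ideal.span {z} : Ideal (𝓞 K)) ≠ 0 := by
    rw [Ne, Ideal.zero_eq_bot, Ideal.span_singleton_eq_bot]
    exact hz
  have h2 := Ideal.finite_factors h1
  refine (h2.image (fun v : IsDedekindDomain.HeightOneSpectrum (𝓞 K) => v.asIdeal)).subset ?_
  rintro R ⟨hR, hzR⟩
  refine ⟨⟨R, hR, ?_⟩, ?_, rfl⟩
  · rintro rfl
    exact hz (by simpa using hzR)
  · show R ∣ Ideal.span {z}
    rw [Ideal.dvd_span_singleton]
    exact hzR

theorem X5_alg (K : Type) [Field K] [NumberField K] : Algebra.IsAlgebraic ℤ K := by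
  have : Algebra.IsAlgebraic ℚ K := inferInstance
  exact (IsFractionRing.comap_isAlgebraic_iff (A := ℤ) (K := ℚ) (C := K)).mpr this

/-- lifting a polynomial with coefficients in a valuation ring -/
theorem X5_lift {k : Type} [Field k] (A : ValuationSubring k) (q : k[X])
    (h : ∀ c ∈ q.coeffs, c ∈ A) : ∃ g : A[X], g.map A.subtype = q := by
  rw [← Polynomial.mem_lifts, Polynomial.lifts_iff_coeff_lifts]
  intro n
  by_cases h0 : q.coeff n = 0
  · rw [h0]
    exact ⟨0, map_zero _⟩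
  · exact ⟨⟨q.coeff n, h _ (Polynomial.coeff_mem_coeffs h0)⟩, rfl⟩

theorem X5_part1 {k : Type} [Field k] (A : ValuationSubring k) (f u v : k[X])
    (huv : u * f + v * derivative f = 1)
    (h1 : ∀ c ∈ f.coeffs, c ∈ A) (h2 : ∀ c ∈ u.coeffs, c ∈ A) (h3 : ∀ c ∈ v.coeffs, c ∈ A)
    (hl : A.valuation f.leadingCoeff = 1) :
    ∃ g : A[X], g.map A.subtype = f ∧ (g.map (residue A)).Separable ∧
        (g.map (residue A)).natDegree = g.natDegree := by
  obtain ⟨g, hg⟩ := X5_lift A f h1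
  obtain ⟨gu, hgu⟩ := X5_lift A u h2
  obtain ⟨gv, hgv⟩ := X5_lift A v h3
  have hinj : Function.Injective (A.subtype : A →+* k) := Subtype.val_injective
  refine ⟨g, hg, ?_, ?_⟩
  · have hsep : g.Separable := by
      refine ⟨gu, gv, ?_⟩
      apply Polynomial.map_injective A.subtype hinj
      rw [Polynomial.map_add, Polynomial.map_mul, Polynomial.map_mul, ← Polynomial.derivative_map,
        hg, hgu, hgv, huv, Polynomial.map_one]
    exact hsep.map
  · apply Polynomial.natDegree_map_of_leadingCoeff_ne_zero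
    intro h0
    rw [IsLocalRing.residue_eq_zero_iff, ValuationSubring.valuation_lt_one_iff] at h0
    have h4 : ((g.leadingCoeff : A) : k) = f.leadingCoeff := by
      rw [← hg, Polynomial.leadingCoeff_map_of_injective hinj]
      rfl
    rw [h4, hl] at h0
    exact lt_irrefl _ h0

theorem good_primes {k N : Type} [Field k] [NumberField k] [Field N] [NumberField N] [Algebra k N]
    (f : k[X]) (hf : f.Separable) (hs : (f.map (algebraMap k N)).Splits) :
    ∃ B : Set (Ideal (𝓞 k)), B.Finite ∧ ∀ P : Ideal (𝓞 k), P.IsPrime → P ≠ ⊥ → P ∉ B →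
      ∀ A : ValuationSubring k, (∀ x : 𝓞 k, (x : k) ∈ A) →
      (∀ x : 𝓞 k, A.valuation (x : k) < 1 ↔ x ∈ P) →
      ∃ g : A[X], g.map A.subtype = f ∧ (g.map (residue A)).Separable ∧
        (g.map (residue A)).natDegree = g.natDegree ∧
        ∀ p : ℕ, p.Prime → Nat.card (ResidueField A) = p →
          (∃ a, (g.map (residue A)).eval a = 0) →
          ∀ R : Ideal (𝓞 N), R.IsPrime → R.comap (algebraMap (𝓞 k) (𝓞 N)) = P →
            ∀ φ : N ≃ₐ[k] N, FrobAt φ R p → ∃ r : N, aeval r f = 0 ∧ φ r = r := by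
  classical
  have hf0 : f ≠ 0 := hf.ne_zero
  obtain ⟨u, v, huv⟩ := id hf
  have hN : Algebra.IsAlgebraic ℤ N := X5_alg N
  let Rt : Finset N := (f.map (algebraMap k N)).roots.toFinset
  let T : Finset N := Rt ∪ (f.coeffs ∪ u.coeffs ∪ v.coeffs).image (algebraMap k N)
  obtain ⟨D, hD0, hD⟩ := Algebra.IsAlgebraic.exists_integral_multiples ℤ (A := N) T
  have hDk : ∀ c ∈ f.coeffs ∪ u.coeffs ∪ v.coeffs, IsIntegral ℤ ((D : k) * c) := by
    intro c hc
    have h1 := hD (algebraMap k N c) (Finset.mem_union_right _ (Finset.mem_image_of_mem _ hc))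
    have h2 : D • algebraMap k N c = algebraMap k N ((D : k) * c) := by
      rw [zsmul_eq_mul, map_mul, map_intCast]
    rw [h2] at h1
    exact (isIntegral_algebraMap_iff (algebraMap k N).injective).mp h1
  have hDr : ∀ r ∈ Rt, IsIntegral ℤ ((D : N) * r) := by
    intro r hr
    have h1 := hD r (Finset.mem_union_left _ hr)
    rwa [zsmul_eq_mul] at h1
  -- integral representatives
  have hlc : f.leadingCoeff ∈ f.coeffs := by
    rw [Polynomial.leadingCoeff]
    exact Polynomial.coeff_mem_coeffs (by simpa using hf0)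
  have hlc' : f.leadingCoeff ∈ f.coeffs ∪ u.coeffs ∪ v.coeffs :=
    Finset.mem_union_left _ (Finset.mem_union_left _ hlc)
  let lam : 𝓞 k := ⟨(D : k) * f.leadingCoeff, hDk _ hlc'⟩
  have hlam : (lam : k) = (D : k) * f.leadingCoeff := rfl
  have hρ0 : ∀ r : N, ∃ x : 𝓞 N, r ∈ Rt → (x : N) = (D : N) * r := by
    intro r
    by_cases hr : r ∈ Rt
    · exact ⟨⟨(D : N) * r, hDr r hr⟩, fun _ => rfl⟩
    · exact ⟨0, fun h => absurd h hr⟩
  choose ρ hρ using hρ0
  have hDN : (D : N) ≠ 0 := by exact_mod_cast hD0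
  have hDK : (D : k) ≠ 0 := by exact_mod_cast hD0
  let z1 : 𝓞 k := (D : 𝓞 k) * lam
  have hz1 : z1 ≠ 0 := by
    refine mul_ne_zero (by exact_mod_cast hD0) ?_
    intro h0
    have : (lam : k) = 0 := by rw [h0]; rfl
    rw [hlam] at this
    exact mul_ne_zero hDK (leadingCoeff_ne_zero.mpr hf0) this
  let z2 : 𝓞 N := ∏ q ∈ Rt.offDiag, (ρ q.1 - ρ q.2)
  have hz2 : z2 ≠ 0 := by
    rw [Finset.prod_ne_zero_iff]
    rintro ⟨a, b⟩ hab h0
    rw [Finset.mem_offDiag] at hab
    have h1 : ((ρ a : 𝓞 N) : N) = ((ρ b : 𝓞 N) : N) := by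
      rw [sub_eq_zero.mp h0]
    rw [hρ a hab.1, hρ b hab.2.1] at h1
    exact hab.2.2 (mul_left_cancel₀ hDN h1)
  refine ⟨{P | P.IsPrime ∧ z1 ∈ P} ∪ (fun R : Ideal (𝓞 N) => R.comap (algebraMap (𝓞 k) (𝓞 N))) ''
    {R | R.IsPrime ∧ z2 ∈ R}, (X5_fin z1 hz1).union ((X5_fin z2 hz2).image _), ?_⟩
  intro P hP _ hPB A hA hAP
  have hz1P : z1 ∉ P := fun h => hPB (Or.inl ⟨hP, h⟩)
  have hDP : (D : 𝓞 k) ∉ P := fun h => hz1P (P.mul_mem_right _ h)
  have hlamP : lam ∉ P := fun h => hz1P (P.mul_mem_left _ h)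
  have hval1 : ∀ x : 𝓞 k, x ∉ P → A.valuation (x : k) = 1 := by
    intro x hx
    have h1 : A.valuation (x : k) ≤ 1 := (A.valuation_le_one_iff _).mpr (hA x)
    have h2 : ¬ A.valuation (x : k) < 1 := fun h => hx ((hAP x).mp h)
    exact le_antisymm h1 (not_lt.mp h2)
  have hvD : A.valuation (D : k) = 1 := by
    have := hval1 (D : 𝓞 k) hDP
    simpa using this
  have hcA : ∀ c ∈ f.coeffs ∪ u.coeffs ∪ v.coeffs, c ∈ A := by
    intro c hc
    have h1 : (D : k) * c ∈ A := hA ⟨(D : k) * c, hDk c hc⟩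
    rw [← A.valuation_le_one_iff, map_mul, hvD, one_mul] at h1
    exact (A.valuation_le_one_iff _).mp h1
  have hvl : A.valuation f.leadingCoeff = 1 := by
    have h1 := hval1 lam hlamP
    rw [hlam, map_mul, hvD, one_mul] at h1
    exact h1
  obtain ⟨g, hg, hgs, hgd⟩ := X5_part1 A f u v huv
    (fun c hc => hcA c (Finset.mem_union_left _ (Finset.mem_union_left _ hc)))
    (fun c hc => hcA c (Finset.mem_union_left _ (Finset.mem_union_right _ hc)))
    (fun c hc => hcA c (Finset.mem_union_right _ hc)) hvl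
  refine ⟨g, hg, hgs, hgd, ?_⟩
  intro p hp hcard ⟨a, ha⟩ R hR hRP φ hφ
  have : Fact p.Prime := ⟨hp⟩
  -- `a` is the class of an integer
  obtain ⟨m, hm⟩ : ∃ m : ℤ, (m : ResidueField A) = a := by
    have h1 : a ∈ AddSubgroup.zmultiples (1 : ResidueField A) :=
      mem_zmultiples_of_prime_card hcard one_ne_zero
    obtain ⟨m, hm⟩ := AddSubgroup.mem_zmultiples_iff.mp h1
    exact ⟨m, by rw [← hm, zsmul_eq_mul, mul_one]⟩
  have hpP : (p : 𝓞 k) ∈ P := by
    rw [← hAP]
    have h1 : (p : ResidueField A) = 0 := by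
      have : Finite (ResidueField A) := Nat.finite_of_card_ne_zero (by rw [hcard]; exact hp.ne_zero)
      have h3 : (Nat.card (ResidueField A)) • (1 : ResidueField A) = 0 := card_nsmul_eq_zero'
      rw [hcard, nsmul_eq_mul, mul_one] at h3
      exact h3
    have h2 : residue A (p : A) = 0 := by rw [map_natCast]; exact h1
    rw [IsLocalRing.residue_eq_zero_iff, ValuationSubring.valuation_lt_one_iff] at h2
    simpa using h2
  have hpR : (p : 𝓞 N) ∈ R := by
    have h1 : (p : 𝓞 k) ∈ R.comap (algebraMap (𝓞 k) (𝓞 N)) := by rw [hRP]; exact hpP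
    rw [Ideal.mem_comap, map_natCast] at h1
    exact h1
  -- the value of `f` at `m`
  have hfm : A.valuation (f.eval (m : k)) < 1 := by
    have h1 : residue A (g.eval (m : A)) = 0 := by
      rw [← Polynomial.eval_intCast_map (residue A) g m, hm]
      exact ha
    rw [IsLocalRing.residue_eq_zero_iff, ValuationSubring.valuation_lt_one_iff] at h1
    have h2 : ((g.eval (m : A) : A) : k) = f.eval (m : k) := by
      rw [← hg]
      exact (Polynomial.eval_intCast_map A.subtype g m).symm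
    rw [h2] at h1
    exact h1
  have hroots : (f.map (algebraMap k N)).roots = Rt.val := by
    have hnd : (f.map (algebraMap k N)).roots.Nodup := Polynomial.nodup_roots hf.map
    exact (Multiset.dedup_eq_self.mpr hnd).symm
  have hev : algebraMap k N (f.eval (m : k)) =
      algebraMap k N f.leadingCoeff * ∏ r ∈ Rt, ((m : N) - r) := by
    have h1 : algebraMap k N (f.eval (m : k)) = (f.map (algebraMap k N)).eval (m : N) :=
      (Polynomial.eval_intCast_map (algebraMap k N) f m).symm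
    rw [h1]
    conv_lhs => rw [hs.eq_prod_roots]
    rw [Polynomial.eval_mul, Polynomial.eval_C, Polynomial.leadingCoeff_map, hroots]
    congr 1
    show eval (m : N) (∏ r ∈ Rt, (X - C r)) = _
    rw [Polynomial.eval_prod]
    simp
  let Y : 𝓞 N := algebraMap (𝓞 k) (𝓞 N) lam * ∏ r ∈ Rt, ((D : 𝓞 N) * (m : 𝓞 N) - ρ r)
  have hY : (Y : N) = algebraMap k N ((D : k) ^ (Rt.card + 1) * f.eval (m : k)) := by
    have h1 : (Y : N) = algebraMap k N (lam : k) *
        ∏ r ∈ Rt, ((D : N) * (m : N) - (ρ r : N)) := by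
      show algebraMap (𝓞 N) N Y = _
      simp only [Y, map_mul, map_prod, map_sub, map_intCast]
      congr 1
    have h2 : ∏ r ∈ Rt, ((D : N) * (m : N) - (ρ r : N)) =
        (D : N) ^ Rt.card * ∏ r ∈ Rt, ((m : N) - r) := by
      rw [← Finset.prod_const, ← Finset.prod_mul_distrib]
      refine Finset.prod_congr rfl fun r hr => ?_
      rw [hρ r hr]
      ring
    rw [h1, h2, map_mul, hev, hlam, map_mul, map_pow, map_intCast]
    ring
  have hint : IsIntegral ℤ ((D : k) ^ (Rt.card + 1) * f.eval (m : k)) := by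
    have h1 : IsIntegral ℤ (Y : N) := RingOfIntegers.isIntegral_coe Y
    rw [hY] at h1
    exact (isIntegral_algebraMap_iff (algebraMap k N).injective).mp h1
  let y' : 𝓞 k := ⟨(D : k) ^ (Rt.card + 1) * f.eval (m : k), hint⟩
  have hyP : y' ∈ P := by
    rw [← hAP]
    show A.valuation ((D : k) ^ (Rt.card + 1) * f.eval (m : k)) < 1
    rw [map_mul, map_pow, hvD, one_pow, one_mul]
    exact hfm
  have hyY : algebraMap (𝓞 k) (𝓞 N) y' = Y := by
    apply RingOfIntegers.ext
    rw [hY]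
    rfl
  have hYR : Y ∈ R := by
    rw [← hRP, Ideal.mem_comap, hyY] at hyP
    exact hyP
  have hprod : ∏ r ∈ Rt, ((D : 𝓞 N) * (m : 𝓞 N) - ρ r) ∈ R := by
    rcases hR.mem_or_mem hYR with h | h
    · exact absurd (by rw [← hRP, Ideal.mem_comap]; exact h) hlamP
    · exact h
  obtain ⟨r, hr, hrR⟩ := (Ideal.IsPrime.prod_mem_iff (hp := hR)).mp hprod
  have hrt : ∀ r : N, r ∈ Rt ↔ aeval r f = 0 := by
    intro r
    rw [Multiset.mem_toFinset, Polynomial.mem_roots (by
      rw [Polynomial.map_ne_zero_iff (algebraMap k N).injective]; exact hf0), Polynomial.IsRoot.def,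
      Polynomial.eval_map_algebraMap]
  refine ⟨r, (hrt r).mp hr, ?_⟩
  by_contra hne
  have hφr : φ r ∈ Rt := by
    rw [hrt]
    have h1 := Polynomial.aeval_algHom_apply (φ : N →ₐ[k] N) r f
    rw [(hrt r).mp hr, map_zero] at h1
    exact h1
  have h1 : ρ (φ r) - (ρ r) ^ p ∈ R := by
    apply hφ
    rw [hρ _ hφr, hρ _ hr, map_mul, map_intCast]
  have h2 : (ρ r) ^ p - ((D : 𝓞 N) * (m : 𝓞 N)) ^ p ∈ R := by
    refine Ideal.mem_of_dvd R (sub_dvd_pow_sub_pow _ _ p) ?_
    rw [← neg_sub]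
    exact neg_mem hrR
  have h3 : ((D : 𝓞 N) * (m : 𝓞 N)) ^ p - ((D : 𝓞 N) * (m : 𝓞 N)) ∈ R := by
    have h4 : (p : ℤ) ∣ (D * m) ^ p - D * m := by
      rw [← ZMod.intCast_zmod_eq_zero_iff_dvd]
      push_cast
      rw [ZMod.pow_card, sub_self]
    obtain ⟨c, hc⟩ := h4
    have h5 : ((D : 𝓞 N) * (m : 𝓞 N)) ^ p - ((D : 𝓞 N) * (m : 𝓞 N)) = (p : 𝓞 N) * (c : 𝓞 N) := by
      exact_mod_cast congrArg (Int.cast : ℤ → 𝓞 N) hc
    rw [h5]
    exact R.mul_mem_right _ hpR
  have h4 : ρ (φ r) - ρ r ∈ R := by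
    have : ρ (φ r) - ρ r = (ρ (φ r) - (ρ r) ^ p) + ((ρ r) ^ p - ((D : 𝓞 N) * (m : 𝓞 N)) ^ p) +
      (((D : 𝓞 N) * (m : 𝓞 N)) ^ p - ((D : 𝓞 N) * (m : 𝓞 N))) +
      ((D : 𝓞 N) * (m : 𝓞 N) - ρ r) := by ring
    rw [this]
    exact add_mem (add_mem (add_mem h1 h2) h3) hrR
  have h5 : z2 ∈ R := by
    refine Ideal.mem_of_dvd R ?_ h4
    exact Finset.dvd_prod_of_mem (fun q : N × N => ρ q.1 - ρ q.2)
      (Finset.mem_offDiag.mpr ⟨hφr, hr, hne⟩ : (φ r, r) ∈ Rt.offDiag)
  exact hPB (Or.inr ⟨R, ⟨hR, h5⟩, hRP⟩)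

end SC4
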