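import Pool.Agent.MP_c1dca2_ag.SC4.Y4
import Pool.Agent.MP_c1dca2_ag.SC4.X2
import Pool.Agent.MP_c1dca2_ag.SC4.X3
import Pool.Agent.MP_c1dca2_ag.SC4.X4
import Pool.Agent.MP_c1dca2_ag.SC4.X5
import Pool.Agent.MP_c1dca2_ag.SC2.F

/-!
# [SC4-F] Assembly: no sections for 100% of the quadratic twists
-/

set_option autoImplicit false

open NumberField IsLocalRing Polynomial Filter Topology

namespace SC4

variable {k : Type} [Field k] [NumberField k]

/-- The primes at which the twists can be obstructed. -/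
def Good (f : k[X]) (P : Ideal (𝓞 k)) : Prop :=
  ∀ x : 𝓞 k, x ∈ P → x ∉ P ^ 2 → SCJ.NoSection k (C (x : k) * f)

theorem good_set (f : k[X]) (hsep : f.Separable) (heven : Even f.natDegree)
    (h4 : 4 ≤ f.natDegree)
    (hσ : ∃ σ : f.SplittingField ≃ₐ[k] f.SplittingField,
      ∀ r : f.SplittingField, aeval r f = 0 → σ r ≠ r) :
    ¬ Summable (fun p : {p : ℕ | p.Prime ∧ ∃ P : Ideal (𝓞 k), Ideal.absNorm P = p ∧ Good f P} =>
      ((p : ℕ) : ℝ)⁻¹) := by
  classical
  obtain ⟨σ, hσ⟩ := hσ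
  have hfin : Module.Finite k f.SplittingField := inferInstance
  have hnf : NumberField f.SplittingField := NumberField.of_module_finite k f.SplittingField
  have hgal : IsGalois k f.SplittingField := by
    have : Algebra.IsSeparable k f.SplittingField := inferInstance
    have : Normal k f.SplittingField := inferInstance
    exact ⟨⟩
  let F : IntermediateField k f.SplittingField :=
    IntermediateField.fixedField (Subgroup.zpowers σ)
  have hF : NumberField F := nf F
  have hgal' : IsGalois F f.SplittingField := inferInstance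
  -- the generator
  have hfix : F.fixingSubgroup = Subgroup.zpowers σ :=
    IntermediateField.fixingSubgroup_fixedField _
  have hσF : σ ∈ F.fixingSubgroup := by rw [hfix]; exact Subgroup.mem_zpowers σ
  let σ' : f.SplittingField ≃ₐ[F] f.SplittingField :=
    IntermediateField.fixingSubgroupEquiv F ⟨σ, hσF⟩
  have hσ' : ∀ x, σ' x = σ x := fun x => rfl
  have hgen : ∀ τ : f.SplittingField ≃ₐ[F] f.SplittingField, τ ∈ Subgroup.zpowers σ' := by
    intro τ
    have h2 : ((IntermediateField.fixingSubgroupEquiv F).symm τ).1 ∈ Subgroup.zpowers σ := by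
      rw [← hfix]; exact ((IntermediateField.fixingSubgroupEquiv F).symm τ).2
    obtain ⟨n, hn⟩ := h2
    refine ⟨n, ?_⟩
    change σ' ^ n = τ
    have h3 : (⟨σ, hσF⟩ : F.fixingSubgroup) ^ n = (IntermediateField.fixingSubgroupEquiv F).symm τ :=
      Subtype.ext (by simpa using hn)
    have h4 : σ' ^ n = IntermediateField.fixingSubgroupEquiv F ((⟨σ, hσF⟩ : F.fixingSubgroup) ^ n) :=
      (map_zpow _ _ _).symm
    rw [h4, h3, MulEquiv.apply_symm_apply]
  have hspl : (f.map (algebraMap k f.SplittingField)).Splits := SplittingField.splits f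
  obtain ⟨B, hBfin, hB⟩ := good_primes f hsep hspl
  -- the excluded primes of `F`
  let B' : Set (Ideal (𝓞 F)) :=
    {P | (P ∈ P1 F ∧ P.comap (algebraMap (𝓞 k) (𝓞 F)) ∈ B) ∨ Ideal.absNorm P = 2}
  have hB' : B'.Finite := by
    have h1 : {P : Ideal (𝓞 F) | P ∈ P1 F ∧ P.comap (algebraMap (𝓞 k) (𝓞 F)) ∈ B}.Finite := by
      have h2 : {P : Ideal (𝓞 F) | P ∈ P1 F ∧ P.comap (algebraMap (𝓞 k) (𝓞 F)) ∈ B} ⊆
          ⋃ b ∈ B, {P : Ideal (𝓞 F) | Ideal.absNorm P = Ideal.absNorm b} := by
        rintro P ⟨hP1, hP2⟩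
        simp only [Set.mem_iUnion]
        exact ⟨_, hP2, (norm_comap P hP1).symm⟩
      refine Set.Finite.subset (Set.Finite.biUnion hBfin fun b _ => ?_) h2
      exact Ideal.finite_setOfPred_absNorm_eq _
    have h3 : {P : Ideal (𝓞 F) | Ideal.absNorm P = 2}.Finite := Ideal.finite_setOfPred_absNorm_eq _
    exact (h1.union h3).subset (by intro P hP; exact hP)
  have key := not_summable σ' hgen B' hB'
  intro hs
  apply key
  -- inclusion of the sets
  have hsub : {p : ℕ | ∃ P ∈ T σ', P ∉ B' ∧ Ideal.absNorm P = p} ⊆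
      {p : ℕ | p.Prime ∧ ∃ P : Ideal (𝓞 k), Ideal.absNorm P = p ∧ Good f P} := by
    rintro p ⟨P, ⟨hP1, R, j, hR, hRP, hj, hfrob⟩, hPB, rfl⟩
    have hp : (Ideal.absNorm P).Prime := hP1
    refine ⟨hp, P.comap (algebraMap (𝓞 k) (𝓞 F)), norm_comap P hP1, ?_⟩
    intro x hx hx2
    have hPk1 : P.comap (algebraMap (𝓞 k) (𝓞 F)) ∈ P1 k := by
      change (Ideal.absNorm _).Prime
      rw [norm_comap P hP1]; exact hp
    have hnB : P.comap (algebraMap (𝓞 k) (𝓞 F)) ∉ B := fun h => hPB (Or.inl ⟨hP1, h⟩)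
    have hn2 : Ideal.absNorm P ≠ 2 := fun h => hPB (Or.inr h)
    obtain ⟨A, hA1, hA2, hA3, hA4, hA5, hA6⟩ :=
      exists_val (P.comap (algebraMap (𝓞 k) (𝓞 F))) (P1.isPrime hPk1) (P1.ne_bot hPk1)
    obtain ⟨g, hg1, hg2, hg3, hg4⟩ :=
      hB _ (P1.isPrime hPk1) (P1.ne_bot hPk1) hnB A hA4 hA5
    have hcard : Nat.card (ResidueField A) = Ideal.absNorm P := by
      rw [hA3, norm_comap P hP1]
    have hgd : g.natDegree = f.natDegree := by
      rw [← hg1, natDegree_map_eq_of_injective A.subtype_injective]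
    have h2 : (2 : ResidueField A) ≠ 0 := by
      intro h
      have h0 : ((Nat.card (ResidueField A) : ℕ) : ResidueField A) = 0 := by
        have := Fintype.ofFinite (ResidueField A)
        rw [Nat.card_eq_fintype_card]
        exact Nat.cast_card_eq_zero _
      rw [hcard] at h0
      have h6 : (Ideal.absNorm P).Coprime 2 :=
        (Nat.coprime_primes hp Nat.prime_two).2 hn2
      have h7 := Nat.isCoprime_iff_coprime.2 h6
      obtain ⟨u, v, huv⟩ := h7
      have h8 : ((u * (Ideal.absNorm P : ℕ) + v * (2 : ℕ) : ℤ) : ResidueField A) = 1 := by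
        rw [huv]; simp
      push_cast at h8
      rw [h0, h] at h8
      simp at h8
    have hroot : ∀ a, (g.map (residue A)).eval a ≠ 0 := by
      intro a ha
      have hR' : R.comap (algebraMap (𝓞 k) (𝓞 f.SplittingField)) =
          P.comap (algebraMap (𝓞 k) (𝓞 F)) := by
        rw [← hRP, Ideal.comap_comap]
        rfl
      obtain ⟨r, hr1, hr2⟩ := hg4 _ hp hcard ⟨a, ha⟩ R hR hR' (σ ^ j) (by
        intro x y hxy
        refine hfrob x y ?_
        rw [hxy]
        have h5 : ∀ (n : ℕ) (z : f.SplittingField), (σ' ^ n) z = (σ ^ n) z := by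
          intro n
          induction n with
          | zero => intro z; rfl
          | succ n ih => intro z; rw [pow_succ, pow_succ, AlgEquiv.mul_apply, AlgEquiv.mul_apply, ih, hσ']
        exact (h5 j x).symm)
      -- `σ ∈ ⟨σ^j⟩`
      have hmem : σ' ∈ Subgroup.zpowers (σ' ^ j) := by
        have hfin'' : Finite (f.SplittingField ≃ₐ[F] f.SplittingField) := inferInstance
        have h9 : (orderOf σ').Coprime j := hj.symm
        obtain ⟨i, hi⟩ := exists_pow_eq_self_of_coprime hj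
        exact ⟨i, by simpa using hi⟩
      obtain ⟨i, hi⟩ := hmem
      have hi' : (σ' ^ j) ^ i = σ' := hi
      -- the powers of `σ'` and `σ` agree
      have h5 : ∀ (n : ℕ) (z : f.SplittingField), (σ' ^ n) z = (σ ^ n) z := by
        intro n
        induction n with
        | zero => intro z; rfl
        | succ n ih =>
          intro z; rw [pow_succ, pow_succ, AlgEquiv.mul_apply, AlgEquiv.mul_apply, ih, hσ']
      have h10 : (σ' ^ j) r = r := by rw [h5]; exact hr2
      have h11 : ((σ' ^ j) ^ i) r = r := by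
        have : (σ' ^ j) ∈ MulAction.stabilizer (f.SplittingField ≃ₐ[F] f.SplittingField) r := h10
        exact (Subgroup.zpow_mem _ this i : _)
      rw [hi', hσ'] at h11
      exact hσ r hr1 h11
    have h := SC2.main A h2 g hg2 hg3 (by rw [hgd]; exact heven) (by rw [hgd]; exact h4) hroot
      (x : k) (hA6 x hx hx2)
    rw [hg1] at h
    exact h
  exact (Summable.comp_injective hs (i := Set.inclusion hsub) (Set.inclusion_injective hsub))

theorem main (f : k[X]) (hsep : f.Separable) (heven : Even f.natDegree)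
    (h4 : 4 ≤ f.natDegree)
    (hσ : ∃ σ : f.SplittingField ≃ₐ[k] f.SplittingField,
      ∀ r : f.SplittingField, aeval r f = 0 → σ r ≠ r)
    {ι : Type} [Fintype ι] (b : Module.Basis ι ℤ (𝓞 k)) :
    Tendsto (fun N : ℕ =>
      (Nat.card {c : ι → ℤ // (∀ i, |c i| ≤ N) ∧
        ¬ SCJ.NoSection k (C ((∑ i, c i • b i : 𝓞 k) : k) * f)} : ℝ) /
      (2 * N + 1) ^ (Fintype.card ι)) atTop (𝓝 0) := by
  classical
  have hex : ∀ p : ℕ, ∃ A : Set (ι → ZMod (p ^ 2)),
      (p.Prime ∧ (∃ P : Ideal (𝓞 k), Ideal.absNorm P = p ∧ Good f P)) →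
      ((Nat.card A : ℝ) ≤
        (1 - ((p : ℝ) - 1) / (p : ℝ) ^ 2) * ((p : ℝ) ^ 2) ^ (Fintype.card ι) ∧
      ∀ c : ι → ℤ, ¬ SCJ.NoSection k (C ((∑ i, c i • b i : 𝓞 k) : k) * f) →
        (fun i => (c i : ZMod (p ^ 2))) ∈ A) := by
    intro p
    by_cases h : p.Prime ∧ (∃ P : Ideal (𝓞 k), Ideal.absNorm P = p ∧ Good f P)
    · obtain ⟨hp, P, hP, hG⟩ := h
      obtain ⟨A, hA1, hA2⟩ := card_class b p hp P hP
      exact ⟨A, fun _ => ⟨hA1, fun c hc => hA2 c fun h => hc (hG _ h.1 h.2)⟩⟩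
    · exact ⟨∅, fun h' => absurd h' h⟩
  choose Sp hSp using hex
  exact density_zero {p : ℕ | p.Prime ∧ ∃ P : Ideal (𝓞 k), Ideal.absNorm P = p ∧ Good f P}
    (fun p hp => hp.1) (good_set f hsep heven h4 hσ) Sp (fun p hp => (hSp p hp).1)
    {c : ι → ℤ | ¬ SCJ.NoSection k (C ((∑ i, c i • b i : 𝓞 k) : k) * f)}
    (fun c hc p hp => (hSp p hp).2 c hc)

end SC4
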