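import Mathlib

/-!
# [SC4] Frobenius densities from Dedekind zeta functions: definitions

`S A s` is the sum of `(N P)^(-s)` over a set `A` of ideals; `LD A δ` says that
`S A s = δ log (1/(s-1)) + O(1)` for `1 < s < 2`. `P1 K` is the set of the ideals of prime norm
(degree one primes), `A1 F E` the set of the degree one primes of `F` that have a degree one
prime of `E` above them.
-/

set_option autoImplicit false

open NumberField

namespace SC4

noncomputable section

/-- Sum of `N(P)^(-s)` over a set of ideals. -/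
def S {K : Type} [Field K] [NumberField K] (A : Set (Ideal (𝓞 K))) (s : ℝ) : ℝ :=
  ∑' P : A, (Ideal.absNorm P.1 : ℝ) ^ (-s)

/-- `S A s = δ log (1/(s-1)) + O(1)` on `(1,2)`. -/
def LD {K : Type} [Field K] [NumberField K] (A : Set (Ideal (𝓞 K))) (δ : ℝ) : Prop :=
  ∃ C : ℝ, ∀ s : ℝ, 1 < s → s < 2 → |S A s - δ * Real.log (1 / (s - 1))| ≤ C

/-- Degree one primes. -/
def P1 (K : Type) [Field K] [NumberField K] : Set (Ideal (𝓞 K)) :=
  {P | (Ideal.absNorm P).Prime}

/-- Degree one primes of `F` with a degree one prime of `E` above. -/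
def A1 (F E : Type) [Field F] [NumberField F] [Field E] [NumberField E] [Algebra F E] :
    Set (Ideal (𝓞 F)) :=
  {P | (Ideal.absNorm P).Prime ∧ ∃ Q : Ideal (𝓞 E), (Ideal.absNorm Q).Prime ∧
    Q.comap (algebraMap (𝓞 F) (𝓞 E)) = P}

/-- `φ` is a Frobenius element at the prime `Q`, with residue field downstairs of `p` elements. -/
def FrobAt {F N : Type} [Field F] [Field N] [Algebra F N] (φ : N ≃ₐ[F] N) (Q : Ideal (𝓞 N))
    (p : ℕ) : Prop :=
  ∀ x y : 𝓞 N, (y : N) = φ (x : N) → y - x ^ p ∈ Q

/-- Summability of `N(I)^(-s)` over all ideals. -/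
theorem P1.isPrime {K : Type} [Field K] [NumberField K] {P : Ideal (𝓞 K)} (h : P ∈ P1 K) :
    P.IsPrime := Ideal.isPrime_of_irreducible_absNorm h

theorem P1.ne_bot {K : Type} [Field K] [NumberField K] {P : Ideal (𝓞 K)} (h : P ∈ P1 K) :
    P ≠ ⊥ := by
  rintro rfl
  have h' : (Ideal.absNorm (⊥ : Ideal (𝓞 K))).Prime := h
  rw [Ideal.absNorm_bot] at h'
  exact Nat.not_prime_zero h'

end

end SC4
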