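import Pool.Agent.MP_c1dca2_ag.SC4.Base

/-!
# [SC4-Y1] Counting degree one primes in a Galois extension

`F ⊆ E` number fields, `E/F` Galois with group `G = (E ≃ₐ[F] E)`, `n = [E : F] = |G|`.

`norm_comap`: for `Q` a prime of `𝓞 E` of prime norm `q`, `P = Q ∩ 𝓞 F` has norm `q` as well:
`𝓞 F / P ↪ 𝓞 E / Q ≅ 𝔽_q`.

`exists_bad`: there is a finite set `B` of primes of `𝓞 E` (nonzero) such that for `Q ∉ B` prime,
a `τ ∈ G` with `τ x ≡ x (mod Q)` for all `x ∈ 𝓞 E` is `1`.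

`card_above`: for all `P` outside a finite set of ideals of `𝓞 F`, if some `Q₀` of prime norm lies
above `P` then there are exactly `n` ideals `Q` of prime norm with `Q ∩ 𝓞 F = P`.
-/

set_option autoImplicit false

open NumberField

namespace SC4

theorem norm_comap {F E : Type} [Field F] [NumberField F] [Field E] [NumberField E] [Algebra F E]
    (Q : Ideal (𝓞 E)) (hQ : (Ideal.absNorm Q).Prime) :
    Ideal.absNorm (Q.comap (algebraMap (𝓞 F) (𝓞 E))) = Ideal.absNorm Q := by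
  have hQp : Q.IsPrime := Ideal.isPrime_of_irreducible_absNorm hQ
  set P := Q.comap (algebraMap (𝓞 F) (𝓞 E)) with hP
  let f : (𝓞 F ⧸ P) →+* (𝓞 E ⧸ Q) := Ideal.quotientMap Q (algebraMap (𝓞 F) (𝓞 E)) le_rfl
  have hf : Function.Injective f := Ideal.quotientMap_injective
  have h1 : Nat.card (𝓞 F ⧸ P) ∣ Nat.card (𝓞 E ⧸ Q) :=
    AddSubgroup.card_dvd_of_injective f.toAddMonoidHom hf
  have e1 : Ideal.absNorm P = Nat.card (𝓞 F ⧸ P) := by
    rw [Ideal.absNorm_apply, Submodule.cardQuot_apply]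
  have e2 : Ideal.absNorm Q = Nat.card (𝓞 E ⧸ Q) := by
    rw [Ideal.absNorm_apply, Submodule.cardQuot_apply]
  rw [← e1, ← e2] at h1
  rcases (Nat.dvd_prime hQ).mp h1 with h | h
  · exfalso
    rw [Ideal.absNorm_eq_one_iff] at h
    have hPp : P.IsPrime := Ideal.comap_isPrime _ _
    exact hPp.ne_top h
  · exact h

theorem exists_bad (F E : Type) [Field F] [NumberField F] [Field E] [NumberField E] [Algebra F E] :
    ∃ B : Set (Ideal (𝓞 E)), B.Finite ∧ ∀ Q : Ideal (𝓞 E), Q.IsPrime → Q ≠ ⊥ → Q ∉ B →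
      ∀ τ : E ≃ₐ[F] E, (∀ x y : 𝓞 E, (y : E) = τ (x : E) → y - x ∈ Q) → τ = 1 := by
  classical
  have hfd : FiniteDimensional F E := FiniteDimensional.right ℚ F E
  have key : ∀ τ : E ≃ₐ[F] E, τ ≠ 1 → ∃ x : 𝓞 E, τ • x ≠ x := by
    intro τ hτ
    by_contra hcon
    push Not at hcon
    apply hτ
    ext z
    obtain ⟨a, b, hb, hz⟩ := IsFractionRing.div_surjective (A := 𝓞 E) z
    have h1 : ∀ x : 𝓞 E, τ (x : E) = (x : E) := by
      intro x
      exact congrArg (fun y : 𝓞 E => (y : E)) (hcon x)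
    rw [← hz, map_div₀]
    have ha := h1 a
    have hb' := h1 b
    change τ (a : E) / τ (b : E) = (a : E) / (b : E)
    rw [ha, hb']
  choose! xx hxx using key
  refine ⟨⋃ τ : (E ≃ₐ[F] E), {Q | τ ≠ 1 ∧ Q.IsPrime ∧ Q ≠ ⊥ ∧ τ • xx τ - xx τ ∈ Q}, ?_, ?_⟩
  · apply Set.finite_iUnion
    intro τ
    by_cases hτ : τ = 1
    · simp [hτ]
    · have hne : Ideal.span {τ • xx τ - xx τ} ≠ 0 := by
        rw [Ne, Ideal.zero_eq_bot, Ideal.span_singleton_eq_bot, sub_eq_zero]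
        exact hxx τ hτ
      have hfin := Ideal.finite_factors hne
      refine (hfin.image (fun v => v.asIdeal)).subset ?_
      rintro Q ⟨_, hQ, hQ0, hmem⟩
      exact ⟨⟨Q, hQ, hQ0⟩, Ideal.dvd_span_singleton.mpr hmem, rfl⟩
  · intro Q hQ hQ0 hQB τ hτ
    by_contra hne
    apply hQB
    refine Set.mem_iUnion.mpr ⟨τ, hne, hQ, hQ0, ?_⟩
    apply hτ (xx τ) (τ • xx τ)
    rfl

theorem card_above (F E : Type) [Field F] [NumberField F] [Field E] [NumberField E] [Algebra F E]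
    [IsGalois F E] : ∃ B : Set (Ideal (𝓞 F)), B.Finite ∧ ∀ P ∈ A1 F E, P ∉ B →
      Nat.card {Q : Ideal (𝓞 E) // (Ideal.absNorm Q).Prime ∧
        Q.comap (algebraMap (𝓞 F) (𝓞 E)) = P} = Module.finrank F E := by
  classical
  have hfd : FiniteDimensional F E := FiniteDimensional.right ℚ F E
  obtain ⟨B, hB, hBad⟩ := exists_bad F E
  refine ⟨(fun Q => Q.comap (algebraMap (𝓞 F) (𝓞 E))) '' B, hB.image _, ?_⟩
  rintro P ⟨hPn, Q₀, hQ₀, hQ₀P⟩ hPB
  have hQ₀B : Q₀ ∉ B := fun h => hPB ⟨Q₀, h, hQ₀P⟩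
  have hQ₀p : Q₀.IsPrime := Ideal.isPrime_of_irreducible_absNorm hQ₀
  have hQ₀0 : Q₀ ≠ ⊥ := by
    rintro rfl
    rw [Ideal.absNorm_bot] at hQ₀
    exact Nat.not_prime_zero hQ₀
  open Pointwise in
  have hinv : Algebra.IsInvariant (𝓞 F) (𝓞 E) (E ≃ₐ[F] E) := inferInstance
  -- norms are preserved
  have hnorm : ∀ (τ : E ≃ₐ[F] E) (Q : Ideal (𝓞 E)),
      Ideal.absNorm (τ • Q) = Ideal.absNorm Q := by
    intro τ Q
    have e := Ideal.quotientEquiv Q (τ • Q) (MulSemiringAction.toRingEquiv _ (𝓞 E) τ) rfl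
    rw [Ideal.absNorm_apply, Submodule.cardQuot_apply, Ideal.absNorm_apply,
      Submodule.cardQuot_apply]
    exact (Nat.card_congr e.toEquiv).symm
  have hcomap : ∀ (τ : E ≃ₐ[F] E) (Q : Ideal (𝓞 E)),
      (τ • Q).comap (algebraMap (𝓞 F) (𝓞 E)) = Q.comap (algebraMap (𝓞 F) (𝓞 E)) := by
    intro τ Q
    ext x
    rw [Ideal.mem_comap, Ideal.mem_comap, Ideal.mem_pointwise_smul_iff_inv_smul_mem]
    have : τ⁻¹ • (algebraMap (𝓞 F) (𝓞 E) x) = algebraMap (𝓞 F) (𝓞 E) x :=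
      smul_algebraMap _ _
    rw [this]
  let g : (E ≃ₐ[F] E) → {Q : Ideal (𝓞 E) // (Ideal.absNorm Q).Prime ∧
      Q.comap (algebraMap (𝓞 F) (𝓞 E)) = P} := fun τ =>
    ⟨τ • Q₀, by rw [hnorm]; exact hQ₀, by rw [hcomap]; exact hQ₀P⟩
  have hg : Function.Bijective g := by
    constructor
    · intro σ τ h
      have h1 : σ • Q₀ = τ • Q₀ := congrArg Subtype.val h
      have h2 : (τ⁻¹ * σ) • Q₀ = Q₀ := by
        rw [mul_smul, h1, inv_smul_smul]
      have h3 : τ⁻¹ * σ = 1 := by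
        apply hBad Q₀ hQ₀p hQ₀0 hQ₀B
        intro x y hxy
        -- x is congruent to an integer
        have hy : y = (τ⁻¹ * σ) • x := by
          apply RingOfIntegers.ext
          rw [hxy]
          rfl
        obtain ⟨n, hn⟩ : ∃ n : ℕ, x - (n : 𝓞 E) ∈ Q₀ := by
          have hcard : Nat.card (𝓞 E ⧸ Q₀) = Ideal.absNorm Q₀ := by
            rw [Ideal.absNorm_apply, Submodule.cardQuot_apply]
          have hfin : Finite (𝓞 E ⧸ Q₀) := by
            apply Nat.finite_of_card_ne_zero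
            rw [hcard]; exact hQ₀.ne_zero
          have : Fact (Ideal.absNorm Q₀).Prime := ⟨hQ₀⟩
          have hmem : Ideal.Quotient.mk Q₀ x ∈ AddSubgroup.zmultiples (1 : 𝓞 E ⧸ Q₀) := by
            have hz := mem_zmultiples_of_prime_card (G := 𝓞 E ⧸ Q₀) hcard
              (g := (1 : 𝓞 E ⧸ Q₀)) (g' := Ideal.Quotient.mk Q₀ x) ?_
            · exact hz
            · have : Nontrivial (𝓞 E ⧸ Q₀) := Ideal.Quotient.nontrivial_iff.mpr hQ₀p.ne_top
              exact one_ne_zero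
          rw [← mem_multiples_iff_mem_zmultiples] at hmem
          obtain ⟨n, hn⟩ := hmem
          refine ⟨n, ?_⟩
          rw [← Ideal.Quotient.eq, ← hn]
          simp
        rw [hy]
        have h4 : (τ⁻¹ * σ) • (x - (n : 𝓞 E)) ∈ Q₀ := by
          have := (Ideal.smul_mem_pointwise_smul_iff (a := τ⁻¹ * σ) (S := Q₀)
            (x := x - (n : 𝓞 E))).mpr hn
          rwa [h2] at this
        have h5 : (τ⁻¹ * σ) • (x - (n : 𝓞 E)) - (x - (n : 𝓞 E)) =
            (τ⁻¹ * σ) • x - x := by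
          rw [smul_sub]
          have : (τ⁻¹ * σ) • (n : 𝓞 E) = (n : 𝓞 E) := by
            apply RingOfIntegers.ext
            change (τ⁻¹ * σ) ((n : 𝓞 E) : E) = ((n : 𝓞 E) : E)
            simp
          rw [this]; ring
        rw [← h5]
        exact Q₀.sub_mem h4 hn
      rw [inv_mul_eq_one] at h3
      exact h3.symm
    · rintro ⟨Q, hQ, hQP⟩
      have hQp : Q.IsPrime := Ideal.isPrime_of_irreducible_absNorm hQ
      obtain ⟨τ, hτ⟩ := Algebra.IsInvariant.exists_smul_of_under_eq (𝓞 F) (𝓞 E) (E ≃ₐ[F] E) Q₀ Q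
        (by
          change Q₀.comap (algebraMap (𝓞 F) (𝓞 E)) = Q.comap (algebraMap (𝓞 F) (𝓞 E))
          rw [hQ₀P, hQP])
      exact ⟨τ, Subtype.ext hτ.symm⟩
  rw [← Nat.card_congr (Equiv.ofBijective g hg), IsGalois.card_aut_eq_finrank]

end SC4
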