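import Pool.Agent.MP_c1dca2_ag.SC4.Z5
import Pool.Agent.MP_c1dca2_ag.SC4.Y1

/-!
# [SC4-Y2] Density of the degree one primes with degree one primes above

`E/F` Galois of degree `n`. Claim: `LD (A1 F E) (1/n)`.

Proof. By `norm_comap`, `Q ↦ P = Q ∩ 𝓞 F` maps `P1 E` onto `A1 F E` and preserves the norm. So
`S (P1 E) s = Σ_{P ∈ A1 F E} m_P N P^(-s)`, `m_P` = number of `Q ∈ P1 E` above `P` (a finite number:
those `Q` have norm `N P`, `Ideal.finite_setOfPred_absNorm_eq`; regroup with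
`Equiv.sigmaFiberEquiv`, `Summable.tsum_sigma`, nonnegative terms, `summable_set`). By `card_above`,
`m_P = n` unless `P ∈ B`, `B` finite. So `S (P1 E) s - n S (A1 F E) s` is a sum over the finite set
`B ∩ A1 F E` of `(m_P - n) N P^(-s)`, bounded in absolute value by a constant independent of `s`
(`0 ≤ N P^(-s) ≤ 1`). Divide by `n` (`Module.finrank_pos`) and use `ld_P1 E`.
-/

set_option autoImplicit false

open NumberField

namespace SC4

section Y2aux

variable (F E : Type) [Field F] [NumberField F] [Field E] [NumberField E] [Algebra F E]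

/-- the degree one primes of `E` above `P` -/
abbrev Y2Fib (P : Ideal (𝓞 F)) : Type :=
  {Q : Ideal (𝓞 E) // (Ideal.absNorm Q).Prime ∧ Q.comap (algebraMap (𝓞 F) (𝓞 E)) = P}

/-- the degree one primes of `E`, grouped by the primes of `F` -/
noncomputable def Y2e : (Σ P : A1 F E, Y2Fib F E P.1) ≃ P1 E where
  toFun x := ⟨x.2.1, x.2.2.1⟩
  invFun Q := ⟨⟨Q.1.comap (algebraMap (𝓞 F) (𝓞 E)),
    by rw [norm_comap Q.1 Q.2]; exact Q.2, Q.1, Q.2, rfl⟩, ⟨Q.1, Q.2, rfl⟩⟩
  left_inv := by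
    rintro ⟨⟨P, hP⟩, ⟨Q, hQ⟩⟩
    have hQP : Q.comap (algebraMap (𝓞 F) (𝓞 E)) = P := hQ.2
    subst hQP
    rfl
  right_inv Q := rfl

lemma Y2_sum (s : ℝ) (hs : 1 < s) : S (P1 E) s =
    ∑' P : A1 F E, (Nat.card (Y2Fib F E P.1) : ℝ) * (Ideal.absNorm P.1 : ℝ) ^ (-s) := by
  unfold S
  rw [← (Y2e F E).tsum_eq]
  have hsum : Summable (fun x : (Σ P : A1 F E, Y2Fib F E P.1) =>
      (Ideal.absNorm ((Y2e F E) x).1 : ℝ) ^ (-s)) :=
    (Y2e F E).summable_iff.mpr (summable_set (P1 E) s hs)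
  rw [hsum.tsum_sigma]
  refine tsum_congr fun P => ?_
  have : ∀ Q : Y2Fib F E P.1, (Ideal.absNorm ((Y2e F E) ⟨P, Q⟩).1 : ℝ) ^ (-s) =
      (Ideal.absNorm P.1 : ℝ) ^ (-s) := by
    intro Q
    show (Ideal.absNorm Q.1 : ℝ) ^ (-s) = _
    rw [← norm_comap (F := F) Q.1 Q.2.1, Q.2.2]
  rw [tsum_congr this, tsum_const, nsmul_eq_mul]

lemma Y2_summable (s : ℝ) (hs : 1 < s) : Summable (fun P : A1 F E =>
    (Nat.card (Y2Fib F E P.1) : ℝ) * (Ideal.absNorm P.1 : ℝ) ^ (-s)) := by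
  have hsum : Summable (fun x : (Σ P : A1 F E, Y2Fib F E P.1) =>
      (Ideal.absNorm ((Y2e F E) x).1 : ℝ) ^ (-s)) :=
    (Y2e F E).summable_iff.mpr (summable_set (P1 E) s hs)
  refine hsum.sigma.congr fun P => ?_
  have : ∀ Q : Y2Fib F E P.1, (Ideal.absNorm ((Y2e F E) ⟨P, Q⟩).1 : ℝ) ^ (-s) =
      (Ideal.absNorm P.1 : ℝ) ^ (-s) := by
    intro Q
    show (Ideal.absNorm Q.1 : ℝ) ^ (-s) = _
    rw [← norm_comap (F := F) Q.1 Q.2.1, Q.2.2]
  rw [tsum_congr this, tsum_const, nsmul_eq_mul]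

end Y2aux

theorem ld_A1 (F E : Type) [Field F] [NumberField F] [Field E] [NumberField E] [Algebra F E]
    [IsGalois F E] : LD (A1 F E) (1 / (Module.finrank F E : ℝ)) := by
  obtain ⟨B, hB, hB'⟩ := card_above F E
  obtain ⟨C1, hC1⟩ := ld_P1 E
  set n : ℝ := (Module.finrank F E : ℝ) with hn
  have : FiniteDimensional F E := by
    have : IsScalarTower ℚ F E := IsScalarTower.rat
    exact FiniteDimensional.right ℚ F E
  have hn0 : 0 < n := by
    rw [hn]; exact_mod_cast Module.finrank_pos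
  let g : A1 F E → ℝ := fun P => (Nat.card (Y2Fib F E P.1) : ℝ) - n
  have hg : ∀ P : A1 F E, P.1 ∉ B → g P = 0 := by
    intro P hP
    simp only [g]
    rw [hn, sub_eq_zero]
    exact_mod_cast hB' P.1 P.2 hP
  have hgs : Summable (fun P => |g P|) := by
    refine summable_of_ne_finset_zero (s := (hB.preimage
      (f := fun P : A1 F E => P.1) (Subtype.val_injective.injOn)).toFinset) ?_
    intro P hP
    rw [hg P, abs_zero]
    intro h
    exact hP (by simpa using h)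
  refine ⟨(C1 + ∑' P, |g P|) / n, fun s hs hs2 => ?_⟩
  have e1 := hC1 s hs hs2
  have e2 : |S (P1 E) s - n * S (A1 F E) s| ≤ ∑' P, |g P| := by
    have hsA := summable_set (A1 F E) s hs
    have h1 : S (P1 E) s - n * S (A1 F E) s =
        ∑' P : A1 F E, g P * (Ideal.absNorm P.1 : ℝ) ^ (-s) := by
      rw [Y2_sum F E s hs]
      unfold S
      rw [← tsum_mul_left, ← (Y2_summable F E s hs).tsum_sub (hsA.mul_left n)]
      refine tsum_congr fun P => ?_
      simp only [g]; ring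
    rw [h1]
    have hle : ∀ P : A1 F E, |g P * (Ideal.absNorm P.1 : ℝ) ^ (-s)| ≤ |g P| := by
      intro P
      rw [abs_mul, abs_of_nonneg (Real.rpow_nonneg (Nat.cast_nonneg _) _)]
      exact mul_le_of_le_one_right (abs_nonneg _) (Z5_rpow_le_one P.1 s hs)
    have hs3 : Summable (fun P : A1 F E => |g P * (Ideal.absNorm P.1 : ℝ) ^ (-s)|) :=
      Summable.of_nonneg_of_le (fun _ => abs_nonneg _) hle hgs
    calc |∑' P : A1 F E, g P * (Ideal.absNorm P.1 : ℝ) ^ (-s)|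
        ≤ ∑' P : A1 F E, |g P * (Ideal.absNorm P.1 : ℝ) ^ (-s)| := by
          have := norm_tsum_le_tsum_norm (f := fun P : A1 F E =>
            g P * (Ideal.absNorm P.1 : ℝ) ^ (-s)) (by simpa [Real.norm_eq_abs] using hs3)
          simpa [Real.norm_eq_abs] using this
      _ ≤ ∑' P, |g P| := hs3.tsum_le_tsum hle hgs
  rw [le_div_iff₀ hn0]
  have e3 : |S (A1 F E) s - 1 / n * Real.log (1 / (s - 1))| * n =
      |n * S (A1 F E) s - 1 * Real.log (1 / (s - 1))| := by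
    rw [← abs_of_pos hn0, ← abs_mul, abs_of_pos hn0]
    congr 1
    field_simp
  rw [e3]
  rw [abs_le] at e1 e2 ⊢
  constructor <;> linarith [e1.1, e1.2, e2.1, e2.2]

end SC4
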