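import Pool.Agent.MP_c1dca2_ag.SC4.Y1

/-!
# [SC4-Y3] Frobenius elements in a cyclic extension

`N/F` Galois, `G = (N ≃ₐ[F] N)` generated by `σ`; `M d` = fixed field of `⟨σ^d⟩` (an intermediate
field, a number field). Claim: outside a finite set `B` of ideals, for every degree one
prime `P` of `F` there are a prime `R` of `N` above `P` and `j : ℕ` such that `σ^j` is a Frobenius
at `R` and for all `d ∣ orderOf σ`: `P` has a degree one prime of `M d` above iff `d ∣ j`.

Proof. Choose `R` above `P` (`Ideal.exists_ideal_over_prime_of_isIntegral`... or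
`Ideal.primesOver` nonempty) and a Frobenius `φ` at `R`
(`IsArithFrobAt.exists_of_isInvariant` in `Mathlib/RingTheory/Frobenius`, for `G` acting on `𝓞 N`
with invariants `𝓞 F`; `Nat.card (𝓞 F ⧸ P) = p = absNorm P`), `φ = σ^j` with `j : ℕ` (finite order).
So `φ x ≡ x^p (mod R)` for `x ∈ 𝓞 N`.
(⇐) If `d ∣ j` then `φ ∈ ⟨σ^d⟩` fixes `M d`, so for `x ∈ 𝓞 (M d)`: `x ≡ x^p (mod R)`, i.e. the field
`𝓞 (M d) / Q`, `Q = R ∩ 𝓞 (M d)`, consists of roots of `X^p - X`; it contains `ℤ/p`, so it has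
exactly `p` elements, `absNorm Q = p`, and `Q ∩ 𝓞 F = P`.
(⇒) Let `Q₀` be a prime of `𝓞 (M d)` of prime norm with `Q₀ ∩ 𝓞 F = P` (so `absNorm Q₀ = p` by
`norm_comap`). `M d / F` is Galois (`G` is abelian, every subgroup is normal:
`IsGalois.of_fixedField_normal_subgroup`), so `Q = R ∩ 𝓞 (M d)` is conjugate
to `Q₀` and also has norm `p`. So every `x ∈ 𝓞 (M d)` is congruent to an integer mod `Q`, whence
`x^p ≡ x (mod Q)`, and `φ x ≡ x^p ≡ x (mod R)`, i.e. `φ' x ≡ x (mod Q)` where `φ'` is the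
restriction of `φ` to `M d` (`AlgEquiv.restrictNormal`). By `exists_bad F (M d)` (the finite set `B`
contains, for every `d ∣ orderOf σ`, the primes of `F` below the exceptional primes of `M d`; the
divisors of `orderOf σ` are finitely many), `φ' = 1`, so `φ` fixes `M d` pointwise,
`φ ∈ ⟨σ^d⟩` by Galois theory (`IntermediateField.fixingSubgroup_fixedField`), i.e.
`σ^j = σ^(d i)`, `j ≡ d i (mod orderOf σ)` and `d ∣ orderOf σ` give `d ∣ j`.
-/

set_option autoImplicit false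

open NumberField

namespace SC4

/-- The fixed field of `σ^d`. -/
noncomputable abbrev M {F N : Type} [Field F] [Field N] [Algebra F N] (σ : N ≃ₐ[F] N) (d : ℕ) :
    IntermediateField F N := IntermediateField.fixedField (Subgroup.zpowers (σ ^ d))

instance nf {F N : Type} [Field F] [NumberField F] [Field N] [NumberField N] [Algebra F N]
    (L : IntermediateField F N) : NumberField L := by
  have h1 : Module.Finite F N := Module.Finite.of_restrictScalars_finite ℚ F N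
  have h2 : Module.Finite F L := inferInstance
  exact NumberField.of_module_finite F L

section aux

variable {F E : Type} [Field F] [NumberField F] [Field E] [NumberField E] [Algebra F E]

instance Y3_fd : FiniteDimensional F E := Module.Finite.of_restrictScalars_finite ℚ F E

theorem Y3_smul_coe (g : E ≃ₐ[F] E) (x : 𝓞 E) : ((g • x : 𝓞 E) : E) = g (x : E) := rfl

theorem Y3_eq_smul (g : E ≃ₐ[F] E) (x y : 𝓞 E) (h : (y : E) = g (x : E)) : y = g • x :=
  RingOfIntegers.ext h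

instance Y3_comm : SMulCommClass (E ≃ₐ[F] E) (𝓞 F) (𝓞 E) where
  smul_comm g a x := by
    apply RingOfIntegers.ext
    rw [Y3_smul_coe, Algebra.smul_def, Algebra.smul_def]
    change g (algebraMap F E (a : F) * (x : E)) = algebraMap F E (a : F) * g (x : E)
    rw [map_mul, g.commutes]

instance Y3_inv [IsGalois F E] : Algebra.IsInvariant (𝓞 F) (𝓞 E) (E ≃ₐ[F] E) where
  isInvariant x hx := by
    have h1 : (x : E) ∈ (⊥ : IntermediateField F E) := by
      rw [IsGalois.mem_bot_iff_fixed]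
      intro f
      rw [← Y3_smul_coe, hx f]
    rw [IntermediateField.mem_bot] at h1
    obtain ⟨a, ha⟩ := h1
    have h2 : IsIntegral ℤ a := by
      have h3 : IsIntegral ℤ (algebraMap F E a) := by
        rw [ha]; exact RingOfIntegers.isIntegral_coe x
      exact (isIntegral_algebraMap_iff (algebraMap F E).injective).1 h3
    refine ⟨⟨a, h2⟩, ?_⟩
    apply RingOfIntegers.ext
    exact ha

theorem Y3_card (I : Ideal (𝓞 E)) : Ideal.absNorm I = Nat.card (𝓞 E ⧸ I) := by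
  rw [Ideal.absNorm_apply, Submodule.cardQuot_apply]

theorem Y3_norm_smul (g : E ≃ₐ[F] E) (Q Q' : Ideal (𝓞 E)) (h : ∀ x, x ∈ Q' ↔ g⁻¹ • x ∈ Q) :
    Ideal.absNorm Q' = Ideal.absNorm Q := by
  rw [Y3_card, Y3_card]
  let f : 𝓞 E →+* 𝓞 E := MulSemiringAction.toRingHom (E ≃ₐ[F] E) (𝓞 E) g⁻¹
  have hf : ∀ x, f x = g⁻¹ • x := fun x => rfl
  have hle : Q' ≤ Q.comap f := fun x hx => (h x).1 hx
  have hge : Q.comap f ≤ Q' := fun x hx => (h x).2 hx
  have hsurj : Function.Surjective f := fun x => ⟨g • x, inv_smul_smul g x⟩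
  exact Nat.card_congr (Equiv.ofBijective (Ideal.quotientMap Q f hle)
    ⟨Ideal.quotientMap_injective' hge, Ideal.quotientMap_surjective hsurj⟩)

/-- primes of a Galois extension with the same restriction have the same norm -/
theorem Y3_conj [IsGalois F E] (Q Q' : Ideal (𝓞 E)) (h1 : Q.IsPrime) (h2 : Q'.IsPrime)
    (h : Q.comap (algebraMap (𝓞 F) (𝓞 E)) = Q'.comap (algebraMap (𝓞 F) (𝓞 E))) :
    Ideal.absNorm Q' = Ideal.absNorm Q := by
  obtain ⟨g, hg⟩ := Algebra.IsInvariant.exists_smul_of_under_eq (𝓞 F) (𝓞 E) (E ≃ₐ[F] E) Q Q' h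
  refine Y3_norm_smul g Q Q' (fun x => ?_)
  rw [hg, Ideal.mem_pointwise_smul_iff_inv_smul_mem]

/-- existence of a Frobenius -/
theorem Y3_frob [IsGalois F E] (P : Ideal (𝓞 F)) (hP : P ∈ P1 F) :
    ∃ (R : Ideal (𝓞 E)) (φ : E ≃ₐ[F] E), R.IsPrime ∧
      R.comap (algebraMap (𝓞 F) (𝓞 E)) = P ∧ FrobAt φ R (Ideal.absNorm P) := by
  have hPp := P1.isPrime hP
  have hP0 := P1.ne_bot hP
  obtain ⟨R, _, hR, hRP⟩ := Ideal.exists_ideal_over_prime_of_isIntegral P (⊥ : Ideal (𝓞 E)) (by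
    rw [← RingHom.ker_eq_comap_bot, (RingHom.injective_iff_ker_eq_bot _).1
      (FaithfulSMul.algebraMap_injective (𝓞 F) (𝓞 E))]
    exact bot_le)
  have hR0 : R ≠ ⊥ := by
    rintro rfl
    apply hP0
    rw [← hRP, ← RingHom.ker_eq_comap_bot, (RingHom.injective_iff_ker_eq_bot _).1
      (FaithfulSMul.algebraMap_injective (𝓞 F) (𝓞 E))]
  have hfin : Finite (𝓞 E ⧸ R) := Ring.HasFiniteQuotients.finiteQuotient hR0
  obtain ⟨φ, hφ⟩ := IsArithFrobAt.exists_of_isInvariant (𝓞 F) (E ≃ₐ[F] E) R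
  refine ⟨R, φ, hR, hRP, fun x y hxy => ?_⟩
  have h1 := hφ x
  have h2 : Nat.card (𝓞 F ⧸ R.under (𝓞 F)) = Ideal.absNorm P := by
    rw [Y3_card, ← hRP]
  rw [h2] at h1
  rw [Y3_eq_smul φ x y hxy]
  exact h1

end aux

/-- In a cyclic extension, `M d / F` is Galois. -/
theorem isGalois_M {F N : Type} [Field F] [NumberField F] [Field N] [NumberField N] [Algebra F N]
    [IsGalois F N] (σ : N ≃ₐ[F] N) (hσ : ∀ τ : N ≃ₐ[F] N, τ ∈ Subgroup.zpowers σ) (d : ℕ) :
    IsGalois F (M σ d) := by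
  have hn : (Subgroup.zpowers (σ ^ d)).Normal := by
    constructor
    intro n hn g
    obtain ⟨a, rfl⟩ := Subgroup.mem_zpowers_iff.1 hn
    obtain ⟨b, rfl⟩ := Subgroup.mem_zpowers_iff.1 (hσ g)
    have : σ ^ b * (σ ^ d) ^ a * (σ ^ b)⁻¹ = (σ ^ d) ^ a := by
      rw [mul_inv_eq_iff_eq_mul, ← zpow_natCast, ← zpow_mul, ← zpow_add, ← zpow_add, add_comm]
    rw [this]
    exact hn
  exact IsGalois.of_fixedField_normal_subgroup (Subgroup.zpowers (σ ^ d))

theorem finrank_M {F N : Type} [Field F] [NumberField F] [Field N] [NumberField N] [Algebra F N]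
    [IsGalois F N] (σ : N ≃ₐ[F] N) (hσ : ∀ τ : N ≃ₐ[F] N, τ ∈ Subgroup.zpowers σ) (d : ℕ)
    (hd : d ∣ orderOf σ) : Module.finrank F (M σ d) = d := by
  have h1 : Nat.card (N ≃ₐ[F] N) = orderOf σ := (orderOf_eq_card_of_forall_mem_zpowers hσ).symm
  have h2 : Module.finrank (M σ d) N = Nat.card (Subgroup.zpowers (σ ^ d)) :=
    IntermediateField.finrank_fixedField_eq_card _
  have h3 : Nat.card (Subgroup.zpowers (σ ^ d)) = orderOf (σ ^ d) := Nat.card_zpowers _
  have h4 : Module.finrank F (M σ d) * Module.finrank (M σ d) N = Module.finrank F N :=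
    Module.finrank_mul_finrank _ _ _
  have h5 : Nat.card (N ≃ₐ[F] N) = Module.finrank F N := IsGalois.card_aut_eq_finrank F N
  have hpos : 0 < orderOf σ := orderOf_pos σ
  obtain ⟨e, he⟩ := hd
  have hd0 : d ≠ 0 := by
    rintro rfl
    rw [zero_mul] at he
    omega
  have h6 : orderOf (σ ^ d) = e := by
    rw [orderOf_pow_of_dvd hd0 ⟨e, he⟩, he, Nat.mul_div_cancel_left _ (Nat.pos_of_ne_zero hd0)]
  have he0 : 0 < e := by
    rcases Nat.eq_zero_or_pos e with h | h
    · rw [h, mul_zero] at he; omega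
    · exact h
  rw [h2, h3, h6, ← h5, h1, he] at h4
  exact Nat.eq_of_mul_eq_mul_right he0 h4

theorem Y3_cardle {K : Type} [Field K] [Fintype K] (p : ℕ) (hp : 1 < p)
    (h : ∀ x : K, x ^ p = x) : Fintype.card K ≤ p := by
  classical
  have h1 : (Polynomial.X ^ p - Polynomial.X : Polynomial K) ≠ 0 :=
    FiniteField.X_pow_card_sub_X_ne_zero _ hp
  have h2 : (Finset.univ : Finset K) ⊆
      (Polynomial.X ^ p - Polynomial.X : Polynomial K).roots.toFinset := by
    intro x _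
    rw [Multiset.mem_toFinset, Polynomial.mem_roots h1, Polynomial.IsRoot.def,
      Polynomial.eval_sub, Polynomial.eval_pow, Polynomial.eval_X, sub_eq_zero]
    exact h x
  rw [← Finset.card_univ]
  refine (Finset.card_le_card h2).trans ((Multiset.toFinset_card_le _).trans
    ((Polynomial.card_roots' _).trans ?_))
  rw [FiniteField.X_pow_card_sub_X_natDegree_eq _ hp]

/-- a residue field in which `x^p = x` and which contains a field with `p` elements -/
theorem Y3_small {F L : Type} [Field F] [NumberField F] [Field L] [NumberField L] [Algebra F L]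
    (Q : Ideal (𝓞 L)) (hQ : Q.IsPrime) (hQ0 : Q ≠ ⊥) (p : ℕ) (hp : p.Prime)
    (hP : Ideal.absNorm (Q.comap (algebraMap (𝓞 F) (𝓞 L))) = p)
    (h : ∀ x : 𝓞 L, x - x ^ p ∈ Q) : Ideal.absNorm Q = p := by
  have hfin : Finite (𝓞 L ⧸ Q) := Ring.HasFiniteQuotients.finiteQuotient hQ0
  have := Fintype.ofFinite (𝓞 L ⧸ Q)
  have hmax : Q.IsMaximal := hQ.isMaximal hQ0
  rw [Y3_card]
  apply le_antisymm
  · let _ := Ideal.Quotient.field Q
    rw [Nat.card_eq_fintype_card]
    refine Y3_cardle p hp.one_lt (fun x => ?_)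
    obtain ⟨x, rfl⟩ := Ideal.Quotient.mk_surjective x
    have h1 := (Ideal.Quotient.eq (I := Q)).2 (h x)
    rw [map_pow] at h1
    exact h1.symm
  · rw [← hP, Y3_card]
    refine Nat.card_le_card_of_injective
      (Ideal.quotientMap Q (algebraMap (𝓞 F) (𝓞 L)) le_rfl) ?_
    exact Ideal.quotientMap_injective

theorem Y3_fermat {L : Type} [Field L] [NumberField L] (Q : Ideal (𝓞 L)) (p : ℕ) (hp : p.Prime)
    (hQ : Ideal.absNorm Q = p) (x : 𝓞 L) : x ^ p - x ∈ Q := by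
  have hpr : Q.IsPrime := Ideal.isPrime_of_irreducible_absNorm (by rw [hQ]; exact hp)
  have hQ0 : Q ≠ ⊥ := by
    rintro rfl
    rw [Ideal.absNorm_bot] at hQ
    exact hp.ne_zero hQ.symm
  have hfin : Finite (𝓞 L ⧸ Q) := Ring.HasFiniteQuotients.finiteQuotient hQ0
  have := Fintype.ofFinite (𝓞 L ⧸ Q)
  have hmax : Q.IsMaximal := hpr.isMaximal hQ0
  let _ := Ideal.Quotient.field Q
  have h1 := FiniteField.pow_card (Ideal.Quotient.mk Q x)
  rw [← Nat.card_eq_fintype_card, ← Y3_card, hQ, ← map_pow, Ideal.Quotient.eq] at h1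
  exact h1

/-- the tower compatibility -/
theorem Y3_tower {F N : Type} [Field F] [NumberField F] [Field N] [NumberField N] [Algebra F N]
    (L : IntermediateField F N) (R : Ideal (𝓞 N)) :
    (R.comap (algebraMap (𝓞 L) (𝓞 N))).comap (algebraMap (𝓞 F) (𝓞 L)) =
      R.comap (algebraMap (𝓞 F) (𝓞 N)) := by
  rw [Ideal.comap_comap]
  congr 1

/-- the main equivalence for one intermediate field -/
theorem Y3_iff {F N : Type} [Field F] [NumberField F] [Field N] [NumberField N] [Algebra F N]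
    [IsGalois F N] (L : IntermediateField F N) [IsGalois F L] (B : Set (Ideal (𝓞 L)))
    (hB : ∀ Q : Ideal (𝓞 L), Q.IsPrime → Q ≠ ⊥ → Q ∉ B →
      ∀ τ : L ≃ₐ[F] L, (∀ x y : 𝓞 L, (y : L) = τ (x : L) → y - x ∈ Q) → τ = 1)
    (P : Ideal (𝓞 F)) (hP : P ∈ P1 F)
    (hPB : P ∉ (fun Q : Ideal (𝓞 L) => Q.comap (algebraMap (𝓞 F) (𝓞 L))) '' B)
    (R : Ideal (𝓞 N)) (hR : R.IsPrime) (hRP : R.comap (algebraMap (𝓞 F) (𝓞 N)) = P)
    (φ : N ≃ₐ[F] N) (hφ : FrobAt φ R (Ideal.absNorm P)) :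
    P ∈ A1 F L ↔ φ ∈ L.fixingSubgroup := by
  have hp : (Ideal.absNorm P).Prime := hP
  set Q : Ideal (𝓞 L) := R.comap (algebraMap (𝓞 L) (𝓞 N)) with hQdef
  have hQ : Q.IsPrime := Ideal.comap_isPrime _ _
  have hQP : Q.comap (algebraMap (𝓞 F) (𝓞 L)) = P := by rw [hQdef, Y3_tower, hRP]
  have hQ0 : Q ≠ ⊥ := by
    intro h0
    apply P1.ne_bot hP
    rw [← hQP, h0, ← RingHom.ker_eq_comap_bot, (RingHom.injective_iff_ker_eq_bot _).1
      (FaithfulSMul.algebraMap_injective (𝓞 F) (𝓞 L))]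
  constructor
  · rintro ⟨_, Q₀, hQ₀, hQ₀P⟩
    have h1 : Ideal.absNorm Q₀ = Ideal.absNorm P := by rw [← norm_comap (F := F) Q₀ hQ₀, hQ₀P]
    have h2 : Ideal.absNorm Q = Ideal.absNorm P := by
      rw [← h1]
      exact Y3_conj (F := F) Q₀ Q (Ideal.isPrime_of_irreducible_absNorm hQ₀) hQ
        (by rw [hQ₀P, hQP])
    have h3 := Y3_fermat Q _ hp h2
    have h4 : φ.restrictNormal L = 1 := by
      refine hB Q hQ hQ0 ?_ _ ?_
      · intro hmem
        exact hPB ⟨Q, hmem, hQP⟩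
      · intro x y hxy
        have h5 := hφ (algebraMap (𝓞 L) (𝓞 N) x) (algebraMap (𝓞 L) (𝓞 N) y) (by
          have h6 := AlgEquiv.restrictNormal_commutes φ L (x : L)
          rw [← hxy] at h6
          exact h6)
        have h7 : algebraMap (𝓞 L) (𝓞 N) (x ^ Ideal.absNorm P - x) ∈ R := h3 x
        have h8 : algebraMap (𝓞 L) (𝓞 N) (y - x) ∈ R := by
          have : algebraMap (𝓞 L) (𝓞 N) (y - x) =
            (algebraMap (𝓞 L) (𝓞 N) y - algebraMap (𝓞 L) (𝓞 N) x ^ Ideal.absNorm P) +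
            algebraMap (𝓞 L) (𝓞 N) (x ^ Ideal.absNorm P - x) := by
            rw [map_sub, map_sub, map_pow]; ring
          rw [this]
          exact R.add_mem h5 h7
        exact h8
    intro x
    have h5 := AlgEquiv.restrictNormal_commutes φ L x
    rw [h4] at h5
    exact h5.symm
  · intro hfix
    refine ⟨hp, Q, ?_, hQP⟩
    rw [Y3_small (F := F) Q hQ hQ0 (Ideal.absNorm P) hp (by rw [hQP]) ?_]
    · exact hp
    · intro x
      have h5 := hφ (algebraMap (𝓞 L) (𝓞 N) x) (algebraMap (𝓞 L) (𝓞 N) x) (hfix (x : L)).symm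
      rw [← map_pow, ← map_sub] at h5
      exact h5

theorem frob_div {F N : Type} [Field F] [NumberField F] [Field N] [NumberField N] [Algebra F N]
    [IsGalois F N] (σ : N ≃ₐ[F] N) (hσ : ∀ τ : N ≃ₐ[F] N, τ ∈ Subgroup.zpowers σ) :
    ∃ B : Set (Ideal (𝓞 F)), B.Finite ∧ ∀ P ∈ P1 F, P ∉ B → ∃ (R : Ideal (𝓞 N)) (j : ℕ),
      R.IsPrime ∧ R.comap (algebraMap (𝓞 F) (𝓞 N)) = P ∧ FrobAt (σ ^ j) R (Ideal.absNorm P) ∧
      ∀ d, d ∣ orderOf σ → (P ∈ A1 F (M σ d) ↔ d ∣ j) := by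
  classical
  have hgal : ∀ d, IsGalois F (M σ d) := fun d => isGalois_M σ hσ d
  choose B hBfin hB using fun d => exists_bad F (M σ d)
  refine ⟨⋃ d ∈ (orderOf σ).divisors,
    (fun Q : Ideal (𝓞 (M σ d)) => Q.comap (algebraMap (𝓞 F) (𝓞 (M σ d)))) '' (B d), ?_, ?_⟩
  · exact Set.Finite.biUnion (Finset.finite_toSet _) (fun d _ => (hBfin d).image _)
  · intro P hP hPB
    obtain ⟨R, φ, hR, hRP, hφ⟩ := Y3_frob (E := N) P hP
    have hpos : 0 < orderOf σ := orderOf_pos σ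
    obtain ⟨j, hj⟩ : ∃ j : ℕ, σ ^ j = φ := by
      have := hσ φ
      rw [← mem_powers_iff_mem_zpowers] at this
      exact this
    refine ⟨R, j, hR, hRP, by rw [hj]; exact hφ, fun d hd => ?_⟩
    have hPB' : P ∉ (fun Q : Ideal (𝓞 (M σ d)) => Q.comap (algebraMap (𝓞 F) (𝓞 (M σ d)))) '' (B d) := by
      intro h
      apply hPB
      rw [Set.mem_iUnion₂]
      exact ⟨d, Nat.mem_divisors.2 ⟨hd, hpos.ne'⟩, h⟩
    have := hgal d
    rw [Y3_iff (M σ d) (B d) (hB d) P hP hPB' R hR hRP φ hφ,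
      IntermediateField.fixingSubgroup_fixedField, ← hj, Subgroup.mem_zpowers_iff]
    constructor
    · rintro ⟨i, hi⟩
      have h1 : σ ^ ((d : ℤ) * i) = σ ^ (j : ℤ) := by
        rw [zpow_mul, zpow_natCast, zpow_natCast, hi]
      rw [zpow_eq_zpow_iff_modEq] at h1
      have h2 : (d : ℤ) ∣ (orderOf σ : ℤ) := Int.natCast_dvd_natCast.2 hd
      have h3 : (d : ℤ) ∣ (j : ℤ) := by
        have h4 := (h1.of_dvd h2).dvd
        have h5 : (j : ℤ) = ((j : ℤ) - d * i) + d * i := by ring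
        rw [h5]
        exact dvd_add h4 (dvd_mul_right _ _)
      exact Int.natCast_dvd_natCast.1 h3
    · rintro ⟨i, rfl⟩
      exact ⟨i, by rw [zpow_natCast, ← pow_mul]⟩

end SC4
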