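import Pool.Agent.MP_c1dca2_ag.SC4.Y2
import Pool.Agent.MP_c1dca2_ag.SC4.Y3

/-!
# [SC4-Y4] Primes whose Frobenius generates a cyclic extension

`T σ` = the degree one primes `P` of `F` for which there are a prime `R` of `N` above and `j` prime
to `m = orderOf σ` with `σ^j` a Frobenius at `R`. Claim `frob_density`: there are `c > 0`, `C` with
`S (T σ) s ≥ c log(1/(s-1)) - C` for `1 < s < 2`.

Proof. Let `B`, `R_P`, `j_P` be as in `frob_div`, `A_d = A1 F (M σ d)`. For `P ∈ P1 F \ B`,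
`Σ_{d ∣ m} μ(d) 1[P ∈ A_d] = Σ_{d ∣ gcd(m, j_P)} μ(d) = 1[gcd(m, j_P) = 1] ≤ 1[P ∈ T σ]`
(Möbius: `ArithmeticFunction.sum_moebius...`, `ArithmeticFunction.moebius_mul_coe_zeta`). Multiply
by `N P^(-s)` and sum over `P ∈ P1 F \ B`:
`Σ_{d ∣ m} μ(d) S (A_d \ B) s ≤ S (T σ) s`, and `|S (A_d) s - S (A_d \ B) s| ≤ #B`. By `ld_A1` (with
`isGalois_M`, `finrank_M`), `S A_d s = (1/d) log(1/(s-1)) + O(1)`, so
`S (T σ) s ≥ (Σ_{d ∣ m} μ(d)/d) log(1/(s-1)) - C` and
`Σ_{d ∣ m} μ(d)/d = φ(m)/m > 0` (Möbius inversion of `Σ_{d ∣ m} φ(d) = m`, `Nat.sum_totient`,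
`ArithmeticFunction.sum_eq_iff_sum_smul_moebius_eq`, or
`Nat.totient_eq_mul_prod_factors`).

`not_summable`: let `B'` be any finite set of ideals of `𝓞 F`; the set of the rational primes
`p = absNorm P` with `P ∈ T σ`, `P ∉ B'` has divergent `Σ 1/p`: otherwise, since each `p` arises
from at most `n = [F : ℚ]` ideals `P` (`card_norm_le`), `S (T σ) s ≤ #B' + n Σ 1/p` is bounded for
`s → 1+`, but `c log(1/(s-1)) - C → ∞`.
-/

set_option autoImplicit false

open NumberField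

namespace SC4

theorem Y4_moebius (m j : ℕ) (hm : 0 < m) :
    ∑ d ∈ m.divisors, (if d ∣ j then ((ArithmeticFunction.moebius d : ℤ) : ℝ) else 0) =
      if Nat.Coprime j m then 1 else 0 := by
  rw [← Finset.sum_filter]
  have h1 : m.divisors.filter (fun d => d ∣ j) = (Nat.gcd j m).divisors := by
    ext d
    rw [Finset.mem_filter, Nat.mem_divisors, Nat.mem_divisors, Nat.dvd_gcd_iff]
    have hg : Nat.gcd j m ≠ 0 := (Nat.gcd_pos_of_pos_right j hm).ne'
    constructor
    · rintro ⟨⟨h1, -⟩, h2⟩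
      exact ⟨⟨h2, h1⟩, hg⟩
    · rintro ⟨⟨h2, h1⟩, -⟩
      exact ⟨⟨h1, hm.ne'⟩, h2⟩
  rw [h1]
  have h2 := congrArg (fun f : ArithmeticFunction ℤ => f (Nat.gcd j m))
    ArithmeticFunction.moebius_mul_coe_zeta
  rw [ArithmeticFunction.coe_mul_zeta_apply, ArithmeticFunction.one_apply] at h2
  have h3 : ∑ d ∈ (Nat.gcd j m).divisors, ((ArithmeticFunction.moebius d : ℤ) : ℝ) =
      ((∑ d ∈ (Nat.gcd j m).divisors, ArithmeticFunction.moebius d : ℤ) : ℝ) := by
    push_cast
    rfl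
  rw [h3, h2]
  unfold Nat.Coprime
  split_ifs <;> simp

theorem Y4_pos (m : ℕ) (hm : 0 < m) :
    0 < ∑ d ∈ m.divisors, ((ArithmeticFunction.moebius d : ℤ) : ℝ) * (1 / (d : ℝ)) := by
  have h1 : ∀ n > 0, ∑ i ∈ n.divisors, ((Nat.totient i : ℕ) : ℝ) = ((n : ℕ) : ℝ) := by
    intro n _
    rw [← Nat.cast_sum, Nat.sum_totient]
  have h2 := (ArithmeticFunction.sum_eq_iff_sum_mul_moebius_eq
    (f := fun i => ((Nat.totient i : ℕ) : ℝ)) (g := fun n => (n : ℝ))).1 h1 m hm
  rw [Nat.sum_divisorsAntidiagonal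
    (f := fun a b => ((ArithmeticFunction.moebius a : ℤ) : ℝ) * (b : ℝ))] at h2
  have h3 : ∑ d ∈ m.divisors, ((ArithmeticFunction.moebius d : ℤ) : ℝ) * (1 / (d : ℝ)) =
      (Nat.totient m : ℝ) / m := by
    rw [← h2, Finset.sum_div]
    refine Finset.sum_congr rfl fun d hd => ?_
    obtain ⟨e, he⟩ := Nat.dvd_of_mem_divisors hd
    have hd0 : d ≠ 0 := by rintro rfl; simp at he; omega
    have he0 : e ≠ 0 := by rintro rfl; simp at he; omega
    have h4 : m / d = e := by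
      rw [he]
      exact Nat.mul_div_cancel_left e (Nat.pos_of_ne_zero hd0)
    rw [h4, he]
    push_cast
    have : (d : ℝ) ≠ 0 := by exact_mod_cast hd0
    have : (e : ℝ) ≠ 0 := by exact_mod_cast he0
    field_simp
  rw [h3]
  have h5 : 0 < Nat.totient m := Nat.totient_pos.2 hm
  positivity

section Y4_sums
variable {K : Type} [Field K] [NumberField K]

theorem Y4_ind (A : Set (Ideal (𝓞 K))) (s : ℝ) :
    S A s = ∑' P, A.indicator (fun P : Ideal (𝓞 K) => (Ideal.absNorm P : ℝ) ^ (-s)) P :=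
  tsum_subtype A (fun P : Ideal (𝓞 K) => (Ideal.absNorm P : ℝ) ^ (-s))

theorem Y4_sum (A : Set (Ideal (𝓞 K))) (s : ℝ) (hs : 1 < s) :
    Summable (A.indicator (fun P : Ideal (𝓞 K) => (Ideal.absNorm P : ℝ) ^ (-s))) :=
  summable_subtype_iff_indicator.1 (summable_set A s hs)

theorem Y4_split (A B : Set (Ideal (𝓞 K))) (s : ℝ) (hs : 1 < s) :
    S A s = S (A \ B) s + S (A ∩ B) s := by
  rw [Y4_ind, Y4_ind, Y4_ind, ← (Y4_sum _ s hs).tsum_add (Y4_sum _ s hs)]
  refine tsum_congr fun P => ?_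
  by_cases hA : P ∈ A <;> by_cases hB : P ∈ B <;> simp [Set.indicator, hA, hB]

theorem Y4_diff (A B : Set (Ideal (𝓞 K))) (hB : B.Finite) (s : ℝ) (hs : 1 < s) :
    |S (A \ B) s - S A s| ≤ B.ncard := by
  have h1 := Y4_split A B s hs
  have h2 := S_nonneg (A ∩ B) s
  have h3 := S_le_card (A ∩ B) (hB.inter_of_right A) s hs
  have h4 : ((A ∩ B).ncard : ℝ) ≤ B.ncard := by
    exact_mod_cast Set.ncard_le_ncard Set.inter_subset_right hB
  rw [h1, abs_le]
  constructor <;> linarith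

end Y4_sums

/-- Degree one primes with generating Frobenius. -/
def T {F N : Type} [Field F] [NumberField F] [Field N] [NumberField N] [Algebra F N]
    (σ : N ≃ₐ[F] N) : Set (Ideal (𝓞 F)) :=
  {P | P ∈ P1 F ∧ ∃ (R : Ideal (𝓞 N)) (j : ℕ), R.IsPrime ∧
    R.comap (algebraMap (𝓞 F) (𝓞 N)) = P ∧ Nat.Coprime j (orderOf σ) ∧
    FrobAt (σ ^ j) R (Ideal.absNorm P)}

theorem frob_density {F N : Type} [Field F] [NumberField F] [Field N] [NumberField N] [Algebra F N]
    [IsGalois F N] (σ : N ≃ₐ[F] N) (hσ : ∀ τ : N ≃ₐ[F] N, τ ∈ Subgroup.zpowers σ) :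
    ∃ c C : ℝ, 0 < c ∧ ∀ s : ℝ, 1 < s → s < 2 →
      c * Real.log (1 / (s - 1)) - C ≤ S (T σ) s := by
  classical
  have hfd : FiniteDimensional F N := Module.Finite.of_restrictScalars_finite ℚ F N
  set m := orderOf σ with hmdef
  have hm : 0 < m := orderOf_pos σ
  obtain ⟨B, hB, hBP⟩ := frob_div σ hσ
  have hCd : ∀ d : ℕ, ∃ C : ℝ, d ∣ m → ∀ s : ℝ, 1 < s → s < 2 →
      |S (A1 F (M σ d)) s - 1 / (d : ℝ) * Real.log (1 / (s - 1))| ≤ C := by
    intro d
    by_cases hd : d ∣ m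
    · have := isGalois_M σ hσ d
      obtain ⟨C, hC⟩ := ld_A1 F (M σ d)
      rw [finrank_M σ hσ d hd] at hC
      exact ⟨C, fun _ => hC⟩
    · exact ⟨0, fun h => absurd h hd⟩
  choose Cd hCd using hCd
  refine ⟨∑ d ∈ m.divisors, ((ArithmeticFunction.moebius d : ℤ) : ℝ) * (1 / (d : ℝ)),
    ∑ d ∈ m.divisors, (Cd d + B.ncard), Y4_pos m hm, fun s hs hs2 => ?_⟩
  -- lower bound for the Moebius sum
  have hlow : ∀ d ∈ m.divisors,
      ((ArithmeticFunction.moebius d : ℤ) : ℝ) * (1 / (d : ℝ)) * Real.log (1 / (s - 1)) -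
        (Cd d + B.ncard) ≤
      ((ArithmeticFunction.moebius d : ℤ) : ℝ) * S (A1 F (M σ d) \ B) s := by
    intro d hd
    have h1 := hCd d (Nat.dvd_of_mem_divisors hd) s hs hs2
    have h2 := Y4_diff (A1 F (M σ d)) B hB s hs
    have h3 : |S (A1 F (M σ d) \ B) s - 1 / (d : ℝ) * Real.log (1 / (s - 1))| ≤
        Cd d + B.ncard := by
      have := abs_add_le (S (A1 F (M σ d) \ B) s - S (A1 F (M σ d)) s)
        (S (A1 F (M σ d)) s - 1 / (d : ℝ) * Real.log (1 / (s - 1)))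
      rw [sub_add_sub_cancel] at this
      linarith
    have h4 : |((ArithmeticFunction.moebius d : ℤ) : ℝ)| ≤ 1 := by
      rw [← Int.cast_abs]
      exact_mod_cast ArithmeticFunction.abs_moebius_le_one
    have h5 : |((ArithmeticFunction.moebius d : ℤ) : ℝ) *
        (S (A1 F (M σ d) \ B) s - 1 / (d : ℝ) * Real.log (1 / (s - 1)))| ≤ Cd d + B.ncard := by
      rw [abs_mul]
      calc |((ArithmeticFunction.moebius d : ℤ) : ℝ)| *
            |S (A1 F (M σ d) \ B) s - 1 / (d : ℝ) * Real.log (1 / (s - 1))|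
          ≤ 1 * |S (A1 F (M σ d) \ B) s - 1 / (d : ℝ) * Real.log (1 / (s - 1))| :=
            mul_le_mul_of_nonneg_right h4 (abs_nonneg _)
        _ ≤ Cd d + B.ncard := by rw [one_mul]; exact h3
    have h6 := (abs_le.1 h5).1
    have h7 : ((ArithmeticFunction.moebius d : ℤ) : ℝ) *
        (S (A1 F (M σ d) \ B) s - 1 / (d : ℝ) * Real.log (1 / (s - 1))) =
        ((ArithmeticFunction.moebius d : ℤ) : ℝ) * S (A1 F (M σ d) \ B) s -
        ((ArithmeticFunction.moebius d : ℤ) : ℝ) * (1 / (d : ℝ)) * Real.log (1 / (s - 1)) := by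
      ring
    rw [h7] at h6
    linarith
  -- upper bound
  have hup : ∑ d ∈ m.divisors, ((ArithmeticFunction.moebius d : ℤ) : ℝ) *
      S (A1 F (M σ d) \ B) s ≤ S (T σ) s := by
    let u : Ideal (𝓞 F) → ℝ := fun P => (Ideal.absNorm P : ℝ) ^ (-s)
    have hu : ∀ P, 0 ≤ u P := fun P => Real.rpow_nonneg (Nat.cast_nonneg _) _
    have e1 : ∑ d ∈ m.divisors, ((ArithmeticFunction.moebius d : ℤ) : ℝ) *
        S (A1 F (M σ d) \ B) s = ∑' P, ∑ d ∈ m.divisors,
          ((ArithmeticFunction.moebius d : ℤ) : ℝ) * (A1 F (M σ d) \ B).indicator u P := by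
      rw [Summable.tsum_finsetSum (fun d _ => (Y4_sum _ s hs).mul_left _)]
      refine Finset.sum_congr rfl fun d _ => ?_
      rw [Y4_ind, tsum_mul_left]
    rw [e1, Y4_ind]
    refine Summable.tsum_le_tsum (fun P => ?_)
      (summable_sum (fun d _ => (Y4_sum _ s hs).mul_left _)) (Y4_sum _ s hs)
    by_cases hP : P ∈ P1 F ∧ P ∉ B
    · obtain ⟨R, j, hR, hRP, hfr, hdj⟩ := hBP P hP.1 hP.2
      have e2 : ∑ d ∈ m.divisors, ((ArithmeticFunction.moebius d : ℤ) : ℝ) *
          (A1 F (M σ d) \ B).indicator u P =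
          (∑ d ∈ m.divisors, (if d ∣ j then ((ArithmeticFunction.moebius d : ℤ) : ℝ) else 0)) *
            u P := by
        rw [Finset.sum_mul]
        refine Finset.sum_congr rfl fun d hd => ?_
        have hd' := hdj d (Nat.dvd_of_mem_divisors hd)
        by_cases h : d ∣ j
        · have : P ∈ A1 F (M σ d) \ B := ⟨hd'.2 h, hP.2⟩
          rw [Set.indicator_of_mem this, if_pos h]
        · have : P ∉ A1 F (M σ d) \ B := fun h' => h (hd'.1 h'.1)
          rw [Set.indicator_of_notMem this, if_neg h]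
          ring
      rw [e2, Y4_moebius m j hm]
      split_ifs with hcop
      · have : P ∈ T σ := ⟨hP.1, R, j, hR, hRP, hcop, hfr⟩
        rw [Set.indicator_of_mem this, one_mul]
      · rw [zero_mul]
        exact Set.indicator_nonneg (fun P _ => hu P) P
    · have e2 : ∑ d ∈ m.divisors, ((ArithmeticFunction.moebius d : ℤ) : ℝ) *
          (A1 F (M σ d) \ B).indicator u P = 0 := by
        apply Finset.sum_eq_zero
        intro d _
        have : P ∉ A1 F (M σ d) \ B := fun h' => hP ⟨h'.1.1, h'.2⟩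
        rw [Set.indicator_of_notMem this, mul_zero]
      rw [e2]
      exact Set.indicator_nonneg (fun P _ => hu P) P
  calc (∑ d ∈ m.divisors, ((ArithmeticFunction.moebius d : ℤ) : ℝ) * (1 / (d : ℝ))) *
        Real.log (1 / (s - 1)) - ∑ d ∈ m.divisors, (Cd d + B.ncard)
      = ∑ d ∈ m.divisors, (((ArithmeticFunction.moebius d : ℤ) : ℝ) * (1 / (d : ℝ)) *
          Real.log (1 / (s - 1)) - (Cd d + B.ncard)) := by
        rw [Finset.sum_mul, Finset.sum_sub_distrib]
    _ ≤ _ := Finset.sum_le_sum hlow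
    _ ≤ S (T σ) s := hup

theorem not_summable {F N : Type} [Field F] [NumberField F] [Field N] [NumberField N] [Algebra F N]
    [IsGalois F N] (σ : N ≃ₐ[F] N) (hσ : ∀ τ : N ≃ₐ[F] N, τ ∈ Subgroup.zpowers σ)
    (B' : Set (Ideal (𝓞 F))) (hB' : B'.Finite) :
    ¬ Summable (fun p : {p : ℕ | ∃ P ∈ T σ, P ∉ B' ∧ Ideal.absNorm P = p} => ((p : ℕ) : ℝ)⁻¹) := by
  classical
  intro hsum
  set Q : Set ℕ := {p : ℕ | ∃ P ∈ T σ, P ∉ B' ∧ Ideal.absNorm P = p} with hQ
  obtain ⟨c, C, hc, hcC⟩ := frob_density σ hσ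
  set K : ℝ := ∑' p : Q, ((p : ℕ) : ℝ)⁻¹ with hK
  have hbound : ∀ s : ℝ, 1 < s → s < 2 → S (T σ) s ≤ B'.ncard + Module.finrank ℚ F * K := by
    intro s hs hs2
    have h1 := Y4_split (T σ) B' s hs
    have h2 : S (T σ ∩ B') s ≤ B'.ncard := by
      refine (S_le_card (T σ ∩ B') (hB'.inter_of_right _) s hs).trans ?_
      exact_mod_cast Set.ncard_le_ncard Set.inter_subset_right hB'
    have h3 : S (T σ \ B') s ≤ Module.finrank ℚ F * K := by
      refine Real.tsum_le_of_sum_le (fun P => Real.rpow_nonneg (Nat.cast_nonneg _) _) ?_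
      intro U
      let g : (T σ \ B' : Set (Ideal (𝓞 F))) → Q := fun P =>
        ⟨Ideal.absNorm P.1, P.1, P.2.1, P.2.2, rfl⟩
      have hprime : ∀ P : (T σ \ B' : Set (Ideal (𝓞 F))), (Ideal.absNorm P.1).Prime :=
        fun P => P.2.1.1
      have h4 : ∀ P : (T σ \ B' : Set (Ideal (𝓞 F))), (Ideal.absNorm P.1 : ℝ) ^ (-s) ≤
          (((g P : Q) : ℕ) : ℝ)⁻¹ := by
        intro P
        have hp1 : (1 : ℝ) ≤ (Ideal.absNorm P.1 : ℝ) := by
          exact_mod_cast (hprime P).one_lt.le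
        show (Ideal.absNorm P.1 : ℝ) ^ (-s) ≤ ((Ideal.absNorm P.1 : ℕ) : ℝ)⁻¹
        rw [← Real.rpow_neg_one]
        exact Real.rpow_le_rpow_of_exponent_le hp1 (by linarith)
      calc ∑ P ∈ U, (Ideal.absNorm P.1 : ℝ) ^ (-s)
          ≤ ∑ P ∈ U, (((g P : Q) : ℕ) : ℝ)⁻¹ := Finset.sum_le_sum fun P _ => h4 P
        _ = ∑ q ∈ U.image g, ∑ P ∈ U.filter (fun P => g P = q), (((g P : Q) : ℕ) : ℝ)⁻¹ :=
            (Finset.sum_fiberwise_of_maps_to (fun P hP => Finset.mem_image_of_mem g hP) _).symm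
        _ ≤ ∑ q ∈ U.image g, (Module.finrank ℚ F : ℝ) * (((q : Q) : ℕ) : ℝ)⁻¹ := by
            refine Finset.sum_le_sum fun q hq => ?_
            obtain ⟨P0, -, hP0⟩ := Finset.mem_image.1 hq
            have h5 : ∑ P ∈ U.filter (fun P => g P = q), (((g P : Q) : ℕ) : ℝ)⁻¹ =
                (U.filter (fun P => g P = q)).card * (((q : Q) : ℕ) : ℝ)⁻¹ := by
              rw [← nsmul_eq_mul, ← Finset.sum_const]
              refine Finset.sum_congr rfl fun P hP => ?_
              rw [(Finset.mem_filter.1 hP).2]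
            rw [h5]
            have h6 : (U.filter (fun P => g P = q)).card ≤ Module.finrank ℚ F := by
              have h7 := card_norm_le F (q : ℕ) (by rw [← hP0]; exact hprime P0)
                ((U.filter (fun P => g P = q)).image Subtype.val) (fun P hP => by
                  obtain ⟨P', hP', rfl⟩ := Finset.mem_image.1 hP
                  have := (Finset.mem_filter.1 hP').2
                  rw [← this])
              rwa [Finset.card_image_of_injective _ Subtype.val_injective] at h7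
            have h8 : ((U.filter (fun P => g P = q)).card : ℝ) ≤ (Module.finrank ℚ F : ℝ) := by
              exact_mod_cast h6
            exact mul_le_mul_of_nonneg_right h8 (inv_nonneg.2 (Nat.cast_nonneg _))
        _ = Module.finrank ℚ F * ∑ q ∈ U.image g, (((q : Q) : ℕ) : ℝ)⁻¹ := by
            rw [Finset.mul_sum]
        _ ≤ Module.finrank ℚ F * K := by
            refine mul_le_mul_of_nonneg_left ?_ (Nat.cast_nonneg _)
            exact hsum.sum_le_tsum _ (fun q _ => inv_nonneg.2 (Nat.cast_nonneg _))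
    linarith
  set D : ℝ := B'.ncard + Module.finrank ℚ F * K with hD
  -- choose s close to 1
  set L : ℝ := max 1 ((D + C) / c + 1) with hL
  have hL1 : 1 ≤ L := le_max_left _ _
  have hL2 : (D + C) / c + 1 ≤ L := le_max_right _ _
  have hexp : 0 < Real.exp (-L) := Real.exp_pos _
  have hexp1 : Real.exp (-L) < 1 := by
    rw [Real.exp_lt_one_iff]
    linarith
  have h1 := hcC (1 + Real.exp (-L)) (by linarith) (by linarith)
  have h2 := hbound (1 + Real.exp (-L)) (by linarith) (by linarith)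
  have h3 : Real.log (1 / (1 + Real.exp (-L) - 1)) = L := by
    rw [add_sub_cancel_left, one_div, Real.log_inv, Real.log_exp, neg_neg]
  rw [h3] at h1
  have h4 : D + C < c * L := by
    have : (D + C) / c < L := by linarith
    rwa [div_lt_iff₀ hc, mul_comm] at this
  linarith

end SC4
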