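import Pool.Agent.MP_c1dca2_ag.SC4.Base

/-!
# [SC4-Z1] The sum over all ideals

Proof. `NumberField.dedekindZeta K s` (Mathlib) is the `LSeries` of `n ↦ #{I : N I = n}` and
`NumberField.tendsto_sub_one_mul_dedekindZeta_nhdsGT` says `(s-1) ζ_K(s) → ρ > 0` for `s → 1+`.
(1) Summability: the ideals of norm `≤ x` number `O(x)` (`Ideal.tendsto_norm_le_div_atTop₀`), so by
`LSeriesSummable_of_sum_norm_bigO_and_nonneg` (or: if the series over `n` were not summable at some
`s > 1`, then it is not summable at all smaller `s' ∈ (1, s)`, so `ζ_K(s') = 0` there by the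
convention for `tsum`, contradicting `(s'-1) ζ_K(s') → ρ > 0`) the series
`Σ_n a_n n^(-s)` converges. Group the ideals by norm (finite fibres,
`Ideal.finite_setOfPred_absNorm_eq`) to get summability over ideals: `summable_sigma_of_nonneg` /
`Summable` via `Equiv.sigmaFiberEquiv (Ideal.absNorm)`. The ideal `⊥` has norm `0` and
`(0:ℝ)^(-s) = 0`. (2) The sum over the ideals is the (real) value `ζ_K(s)`.
(3) `log_zeta`: by the limit, there is `ε > 0` with `ρ/2 ≤ (s-1) Z(s) ≤ 2ρ` for `1 < s < 1+ε`, so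
`|log Z(s) - log(1/(s-1))| ≤ max(|log(ρ/2)|, |log(2ρ)|)`. For `1+ε ≤ s < 2`: `Z` is antitone,
`1 ≤ Z(s) ≤ Z(1+ε)` (the unit ideal contributes `1`), and `0 ≤ log(1/(s-1)) ≤ log(1/ε)`.
-/

set_option autoImplicit false

open NumberField

namespace SC4

/-- number of ideals of norm `n` -/
noncomputable def Z1_a (K : Type) [Field K] [NumberField K] (n : ℕ) : ℝ :=
  Nat.card {I : Ideal (𝓞 K) // Ideal.absNorm I = n}

theorem Z1_zeta (K : Type) [Field K] [NumberField K] (s : ℂ) :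
    dedekindZeta K s = LSeries (fun n => ((Z1_a K n : ℝ) : ℂ)) s := by
  rw [dedekindZeta]
  congr 1

theorem Z1_summable (K : Type) [Field K] [NumberField K] (s : ℝ) (hs : 1 < s) :
    LSeriesSummable (fun n => ((Z1_a K n : ℝ) : ℂ)) (s : ℂ) := by
  by_contra h
  have h1 : ∀ s' : ℝ, s' ∈ Set.Ioo 1 s → dedekindZeta K (s' : ℂ) = 0 := by
    intro s' hs'
    rw [Z1_zeta]
    apply LSeries.eq_zero_of_not_LSeriesSummable
    intro h2
    exact h (LSeriesSummable.of_re_le_re (by simpa using hs'.2.le) h2)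
  have h2 := tendsto_sub_one_mul_dedekindZeta_nhdsGT K
  have h3 : Filter.Tendsto (fun s : ℝ => ((s : ℂ) - 1) * dedekindZeta K s) (nhdsWithin 1 (Set.Ioi 1))
      (nhds 0) := by
    apply Filter.Tendsto.congr' _ tendsto_const_nhds
    have : Set.Ioo 1 s ∈ nhdsWithin (1 : ℝ) (Set.Ioi 1) := Ioo_mem_nhdsGT hs
    filter_upwards [this] with s' hs'
    rw [h1 s' hs', mul_zero]
  have h4 := tendsto_nhds_unique h2 h3
  exact dedekindZeta_residue_ne_zero K (by exact_mod_cast h4)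

theorem Z1_term (K : Type) [Field K] [NumberField K] (s : ℝ) (hs : 1 < s) (n : ℕ) :
    LSeries.term (fun n => ((Z1_a K n : ℝ) : ℂ)) (s : ℂ) n =
      ((Z1_a K n * (n : ℝ) ^ (-s) : ℝ) : ℂ) := by
  by_cases hn : n = 0
  · subst hn
    rw [LSeries.term_zero, Nat.cast_zero, Real.zero_rpow (by linarith), mul_zero,
      Complex.ofReal_zero]
  · rw [LSeries.term_of_ne_zero hn, Complex.ofReal_mul, div_eq_mul_inv,
      Real.rpow_neg (Nat.cast_nonneg n), Complex.ofReal_inv,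
      Complex.ofReal_cpow (Nat.cast_nonneg n), Complex.ofReal_natCast]

theorem Z1_fin (K : Type) [Field K] [NumberField K] (n : ℕ) :
    Finite {I : Ideal (𝓞 K) // Ideal.absNorm I = n} :=
  (Ideal.finite_setOfPred_absNorm_eq n).to_subtype

theorem Z1_fibre (K : Type) [Field K] [NumberField K] (s : ℝ) (n : ℕ) :
    ∑' I : {I : Ideal (𝓞 K) // Ideal.absNorm I = n}, (Ideal.absNorm I.1 : ℝ) ^ (-s) =
      Z1_a K n * (n : ℝ) ^ (-s) := by
  have h := Z1_fin K n
  have h1 : (fun I : {I : Ideal (𝓞 K) // Ideal.absNorm I = n} =>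
      (Ideal.absNorm I.1 : ℝ) ^ (-s)) = fun _ => (n : ℝ) ^ (-s) := by
    funext I
    rw [I.2]
  rw [h1, tsum_const, nsmul_eq_mul, Z1_a]

theorem Z1_main (K : Type) [Field K] [NumberField K] (s : ℝ) (hs : 1 < s) :
    Summable (fun I : Ideal (𝓞 K) => (Ideal.absNorm I : ℝ) ^ (-s)) ∧
      dedekindZeta K (s : ℂ) =
        ((∑' I : Ideal (𝓞 K), (Ideal.absNorm I : ℝ) ^ (-s) : ℝ) : ℂ) := by
  have h1 := Z1_summable K s hs
  have h2 : Summable (fun n : ℕ => Z1_a K n * (n : ℝ) ^ (-s)) := by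
    have h3 : Summable (fun n : ℕ => ((Z1_a K n * (n : ℝ) ^ (-s) : ℝ) : ℂ)) := by
      refine (summable_congr (fun n => (Z1_term K s hs n))).1 h1
    exact_mod_cast h3
  let e := Equiv.sigmaFiberEquiv (Ideal.absNorm : Ideal (𝓞 K) → ℕ)
  have h4 : Summable ((fun I : Ideal (𝓞 K) => (Ideal.absNorm I : ℝ) ^ (-s)) ∘ e) := by
    refine (summable_sigma_of_nonneg (f := (fun I : Ideal (𝓞 K) => (Ideal.absNorm I : ℝ) ^ (-s)) ∘ e)
      (fun x => Real.rpow_nonneg (Nat.cast_nonneg _) _)).2 ⟨fun n => ?_, ?_⟩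
    · have := Z1_fin K n
      exact Summable.of_finite
    · refine (summable_congr (fun n => ?_)).2 h2
      exact Z1_fibre K s n
  refine ⟨e.summable_iff.1 h4, ?_⟩
  rw [Z1_zeta, LSeries, tsum_congr (fun n => Z1_term K s hs n), ← Complex.ofReal_tsum]
  congr 1
  rw [← e.tsum_eq, (show (∑' c, (Ideal.absNorm (e c) : ℝ) ^ (-s)) =
    ∑' n, ∑' y, (Ideal.absNorm (e ⟨n, y⟩) : ℝ) ^ (-s) from h4.tsum_sigma)]
  exact tsum_congr (fun n => (Z1_fibre K s n).symm)

theorem summable_ideals (K : Type) [Field K] [NumberField K] (s : ℝ) (hs : 1 < s) :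
    Summable (fun I : Ideal (𝓞 K) => (Ideal.absNorm I : ℝ) ^ (-s)) := by
  exact (Z1_main K s hs).1

theorem Z1_limit (K : Type) [Field K] [NumberField K] :
    Filter.Tendsto (fun s : ℝ => (s - 1) * ∑' I : Ideal (𝓞 K), (Ideal.absNorm I : ℝ) ^ (-s))
      (nhdsWithin 1 (Set.Ioi 1)) (nhds (dedekindZeta_residue K)) := by
  have h2 := tendsto_sub_one_mul_dedekindZeta_nhdsGT K
  have h3 := (Complex.continuous_re.tendsto _).comp h2
  rw [Complex.ofReal_re] at h3
  refine h3.congr' ?_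
  filter_upwards [self_mem_nhdsWithin] with s hs
  simp only [Function.comp_apply]
  rw [(Z1_main K s hs).2, ← Complex.ofReal_one, ← Complex.ofReal_sub, ← Complex.ofReal_mul,
    Complex.ofReal_re]

theorem Z1_one_le (K : Type) [Field K] [NumberField K] (s : ℝ) (hs : 1 < s) :
    1 ≤ ∑' I : Ideal (𝓞 K), (Ideal.absNorm I : ℝ) ^ (-s) := by
  have h := (Z1_main K s hs).1.le_tsum (⊤ : Ideal (𝓞 K))
    (fun I _ => Real.rpow_nonneg (Nat.cast_nonneg _) _)
  rwa [Ideal.absNorm_top, Nat.cast_one, Real.one_rpow] at h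

theorem Z1_anti (K : Type) [Field K] [NumberField K] (s s' : ℝ) (hs : 1 < s) (hss : s ≤ s') :
    ∑' I : Ideal (𝓞 K), (Ideal.absNorm I : ℝ) ^ (-s') ≤
      ∑' I : Ideal (𝓞 K), (Ideal.absNorm I : ℝ) ^ (-s) := by
  refine Summable.tsum_le_tsum (fun I => ?_) (Z1_main K s' (lt_of_lt_of_le hs hss)).1
    (Z1_main K s hs).1
  by_cases h0 : Ideal.absNorm I = 0
  · rw [h0, Nat.cast_zero, Real.zero_rpow (by linarith), Real.zero_rpow (by linarith)]
  · have h1 : (1 : ℝ) ≤ Ideal.absNorm I := by exact_mod_cast Nat.one_le_iff_ne_zero.2 h0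
    exact Real.rpow_le_rpow_of_exponent_le h1 (by linarith)

theorem log_zeta (K : Type) [Field K] [NumberField K] :
    ∃ C : ℝ, ∀ s : ℝ, 1 < s → s < 2 →
      |Real.log (∑' I : Ideal (𝓞 K), (Ideal.absNorm I : ℝ) ^ (-s)) - Real.log (1 / (s - 1))| ≤ C := by
  have hρ := dedekindZeta_residue_pos K
  set ρ := dedekindZeta_residue K with hρdef
  have hlim := Z1_limit K
  have hmem : Set.Ioo (ρ / 2) (2 * ρ) ∈ nhds ρ := Ioo_mem_nhds (by linarith) (by linarith)
  have hev := hlim hmem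
  rw [Filter.mem_map, mem_nhdsGT_iff_exists_Ioo_subset] at hev
  obtain ⟨u, hu, hsub⟩ := hev
  have hu1 : (1 : ℝ) < u := hu
  let s₁ : ℝ := (1 + u) / 2
  have hs1 : 1 < s₁ := by simp only [s₁]; linarith
  have hs1u : s₁ < u := by simp only [s₁]; linarith
  let Z : ℝ → ℝ := fun s => ∑' I : Ideal (𝓞 K), (Ideal.absNorm I : ℝ) ^ (-s)
  refine ⟨|Real.log (ρ / 2)| + |Real.log (2 * ρ)| + Real.log (Z s₁) + |Real.log (1 / (s₁ - 1))|,
    fun s h1 h2 => ?_⟩
  have hZ1 : 1 ≤ Z s₁ := Z1_one_le K s₁ hs1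
  have hlogZ1 : 0 ≤ Real.log (Z s₁) := Real.log_nonneg hZ1
  have hZs : 1 ≤ Z s := Z1_one_le K s h1
  change |Real.log (Z s) - Real.log (1 / (s - 1))| ≤ _
  have a1 := abs_nonneg (Real.log (ρ / 2))
  have a2 := abs_nonneg (Real.log (2 * ρ))
  have a3 := abs_nonneg (Real.log (1 / (s₁ - 1)))
  by_cases hlt : s < s₁
  · have hin : (s - 1) * Z s ∈ Set.Ioo (ρ / 2) (2 * ρ) := hsub ⟨h1, hlt.trans hs1u⟩
    have hpos : 0 < s - 1 := by linarith
    have e1 : Real.log (Z s) - Real.log (1 / (s - 1)) = Real.log ((s - 1) * Z s) := by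
      rw [one_div, Real.log_inv, Real.log_mul hpos.ne' (by linarith)]
      ring
    rw [e1]
    have l1 : Real.log (ρ / 2) ≤ Real.log ((s - 1) * Z s) :=
      Real.log_le_log (by linarith) hin.1.le
    have l2 : Real.log ((s - 1) * Z s) ≤ Real.log (2 * ρ) :=
      Real.log_le_log (lt_trans (by linarith) hin.1) hin.2.le
    have l3 := neg_abs_le (Real.log (ρ / 2))
    have l4 := le_abs_self (Real.log (2 * ρ))
    rw [abs_le]
    constructor <;> linarith
  · rw [not_lt] at hlt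
    have hle : Z s ≤ Z s₁ := Z1_anti K s₁ s hs1 hlt
    have l1 : 0 ≤ Real.log (Z s) := Real.log_nonneg hZs
    have l2 : Real.log (Z s) ≤ Real.log (Z s₁) := Real.log_le_log (by linarith) hle
    have l3 : 0 ≤ Real.log (1 / (s - 1)) := by
      apply Real.log_nonneg
      rw [le_div_iff₀ (by linarith)]
      linarith
    have l4 : Real.log (1 / (s - 1)) ≤ Real.log (1 / (s₁ - 1)) := by
      apply Real.log_le_log
      · apply div_pos one_pos; linarith
      · apply one_div_le_one_div_of_le <;> linarith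
    have l5 := le_abs_self (Real.log (1 / (s₁ - 1)))
    rw [abs_le]
    constructor <;> linarith

end SC4
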