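import Pool.Agent.MP_c1dca2_ag.SC4.Z1

/-!
# [SC4-Z2] Euler product, upper bound for sums over primes

Proof of `prod_le`. Expand `∏_{P ∈ T} (1 + N P^(-s)) = Σ_{U ⊆ T} N(∏_{P ∈ U} P)^(-s)`
(`Finset.prod_one_add` / `Finset.prod_add`; `absNorm` is multiplicative, `Real.mul_rpow`,
`Real.finset_prod_rpow`). The map `U ↦ ∏_{P ∈ U} P` is injective on the subsets of `T`: for a prime
`P ≠ ⊥` of `T`, `P ∣ ∏_{Q ∈ U} Q` iff `P ∈ U` (primes; distinct nonzero primes do not divide each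
other: `Ideal.IsPrime`, `Prime.dvd_finset_prod_iff`, and `P ∣ Q` with `Q` prime gives `Q ≤ P`,
`P = Q` by maximality (dimension one)). So the sum is a sum over a finite set of ideals,
`≤ tsum` (`Summable.sum_le_tsum` with `summable_ideals`).
Proof of `sum_le_log`. For `0 ≤ x ≤ 1`, `x - x^2 ≤ log (1 + x)`
(e.g. `log (1+x) = -log(1/(1+x)) ≥ 1 - 1/(1+x) = x/(1+x) ≥ x - x^2`, from
`Real.log_le_sub_one_of_pos`). Hence
`Σ_{P ∈ T} N P^(-s) ≤ Σ log(1 + N P^(-s)) + Σ N P^(-2s) ≤ log Z(s) + Z(2)` where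
`Z(s) = Σ' N I^(-s)`, using `N P^(-2s) ≤ N P^(-2)` and again `Summable.sum_le_tsum` at `s = 2`
(`2 > 1`). So `C = Z(2)` works.
-/

set_option autoImplicit false

open NumberField

namespace SC4

theorem prod_le (K : Type) [Field K] [NumberField K] (s : ℝ) (hs : 1 < s)
    (T : Finset (Ideal (𝓞 K))) (hT : ∀ P ∈ T, P.IsPrime ∧ P ≠ ⊥) :
    ∏ P ∈ T, (1 + (Ideal.absNorm P : ℝ) ^ (-s)) ≤
      ∑' I : Ideal (𝓞 K), (Ideal.absNorm I : ℝ) ^ (-s) := by
  classical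
  rw [Finset.prod_one_add]
  have h1 : ∀ U ∈ T.powerset, ∏ P ∈ U, (Ideal.absNorm P : ℝ) ^ (-s) =
      (fun I : Ideal (𝓞 K) => (Ideal.absNorm I : ℝ) ^ (-s)) (∏ P ∈ U, P) := by
    intro U _
    simp only
    rw [map_prod, Nat.cast_prod]
    exact Real.finsetProd_rpow U (fun P => (Ideal.absNorm P : ℝ)) (fun _ _ => Nat.cast_nonneg _) _
  rw [Finset.sum_congr rfl h1]
  have hinj : Set.InjOn (fun U : Finset (Ideal (𝓞 K)) => ∏ P ∈ U, P) (T.powerset : Set _) := by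
    have key : ∀ U ⊆ T, ∀ P ∈ T, (P ∣ ∏ Q ∈ U, Q) → P ∈ U := by
      intro U hU P hP hd
      have hPp : Prime P := Ideal.prime_of_isPrime (hT P hP).2 (hT P hP).1
      obtain ⟨Q, hQ, hPQ⟩ := hPp.exists_mem_finset_dvd hd
      have hle : Q ≤ P := Ideal.dvd_iff_le.mp hPQ
      have hQm : Q.IsMaximal := (hT Q (hU hQ)).1.isMaximal (hT Q (hU hQ)).2
      have : Q = P := hQm.eq_of_le (hT P hP).1.ne_top hle
      rw [← this]; exact hQ
    intro U hU V hV hUV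
    have hU' : U ⊆ T := by simpa using hU
    have hV' : V ⊆ T := by simpa using hV
    simp only at hUV
    ext P
    constructor
    · intro h
      exact key V hV' P (hU' h) (hUV ▸ Finset.dvd_prod_of_mem (fun Q => Q) h)
    · intro h
      exact key U hU' P (hV' h) (hUV ▸ Finset.dvd_prod_of_mem (fun Q => Q) h)
  rw [← Finset.sum_image (f := fun I : Ideal (𝓞 K) => (Ideal.absNorm I : ℝ) ^ (-s))
    (g := fun U : Finset (Ideal (𝓞 K)) => ∏ P ∈ U, P) hinj]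
  exact Summable.sum_le_tsum _ (fun _ _ => Real.rpow_nonneg (Nat.cast_nonneg _) _)
    (summable_ideals K s hs)

lemma Z2_log_ge {x : ℝ} (hx : 0 ≤ x) : x - x ^ 2 ≤ Real.log (1 + x) := by
  have h1 : 0 < 1 + x := by linarith
  have h2 := Real.one_sub_inv_le_log_of_pos h1
  refine le_trans ?_ h2
  rw [← sub_nonneg]
  have : 1 - (1 + x)⁻¹ - (x - x ^ 2) = x ^ 3 / (1 + x) := by
    field_simp; ring
  rw [this]
  positivity

theorem sum_le_log (K : Type) [Field K] [NumberField K] :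
    ∃ C : ℝ, ∀ s : ℝ, 1 < s → s < 2 → ∀ T : Finset (Ideal (𝓞 K)),
      (∀ P ∈ T, P.IsPrime ∧ P ≠ ⊥) →
      ∑ P ∈ T, (Ideal.absNorm P : ℝ) ^ (-s) ≤
        Real.log (∑' I : Ideal (𝓞 K), (Ideal.absNorm I : ℝ) ^ (-s)) + C := by
  refine ⟨∑' I : Ideal (𝓞 K), (Ideal.absNorm I : ℝ) ^ (-(2 : ℝ)), ?_⟩
  intro s hs hs2 T hT
  have hx : ∀ P : Ideal (𝓞 K), 0 ≤ (Ideal.absNorm P : ℝ) ^ (-s) :=
    fun P => Real.rpow_nonneg (Nat.cast_nonneg _) _
  have h1 : ∑ P ∈ T, (Ideal.absNorm P : ℝ) ^ (-s) ≤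
      ∑ P ∈ T, Real.log (1 + (Ideal.absNorm P : ℝ) ^ (-s)) +
        ∑ P ∈ T, ((Ideal.absNorm P : ℝ) ^ (-s)) ^ 2 := by
    rw [← Finset.sum_add_distrib]
    refine Finset.sum_le_sum fun P _ => ?_
    have := Z2_log_ge (hx P)
    linarith
  have h2 : ∑ P ∈ T, Real.log (1 + (Ideal.absNorm P : ℝ) ^ (-s)) ≤
      Real.log (∑' I : Ideal (𝓞 K), (Ideal.absNorm I : ℝ) ^ (-s)) := by
    rw [← Real.log_prod (fun P _ => by have := hx P; positivity)]
    refine Real.log_le_log (Finset.prod_pos fun P _ => by have := hx P; positivity) ?_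
    exact prod_le K s hs T hT
  have h3 : ∑ P ∈ T, ((Ideal.absNorm P : ℝ) ^ (-s)) ^ 2 ≤
      ∑' I : Ideal (𝓞 K), (Ideal.absNorm I : ℝ) ^ (-(2 : ℝ)) := by
    refine le_trans (Finset.sum_le_sum (g := fun I : Ideal (𝓞 K) =>
      (Ideal.absNorm I : ℝ) ^ (-(2 : ℝ))) fun P hP => ?_)
      (Summable.sum_le_tsum T (fun _ _ => Real.rpow_nonneg (Nat.cast_nonneg _) _)
        (summable_ideals K 2 (by norm_num)))
    have hN : (1 : ℝ) ≤ (Ideal.absNorm P : ℝ) := by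
      have h0 : Ideal.absNorm P ≠ 0 := by
        rw [Ne, Ideal.absNorm_eq_zero_iff]; exact (hT P hP).2
      exact_mod_cast Nat.one_le_iff_ne_zero.mpr h0
    rw [← Real.rpow_natCast, ← Real.rpow_mul (Nat.cast_nonneg _)]
    refine Real.rpow_le_rpow_of_exponent_le hN ?_
    push_cast
    linarith
  linarith

end SC4
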