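import Pool.Agent.MP_c1dca2_ag.SC4.Z1

/-!
# [SC4-Z3] Euler product, lower bound
-/

set_option autoImplicit false

open NumberField

namespace SC4

open UniqueFactorizationMonoid in
/-- facts about the exponent vectors -/
theorem Z3_factors {K : Type} [Field K] [NumberField K] (B : ℕ)
    (T : Finset (Ideal (𝓞 K)))
    (hT : ∀ I, I ∈ T ↔ I ≠ ⊥ ∧ Ideal.absNorm I ≤ B) (TP : Finset (Ideal (𝓞 K)))
    (hTP : ∀ P, P ∈ TP ↔ P ∈ T ∧ P.IsPrime) :
    ∃ e : Ideal (𝓞 K) → Ideal (𝓞 K) → ℕ,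
      (∀ I ∈ T, ∀ P, e I P ≤ B) ∧ ∀ I ∈ T, I = ∏ P ∈ TP, P ^ e I P := by
  classical
  refine ⟨fun I P => (normalizedFactors I).count P, ?_, ?_⟩
  · intro I hI P
    obtain ⟨hI0, hIB⟩ := (hT I).1 hI
    show (normalizedFactors I).count P ≤ B
    by_cases hP : P ∈ normalizedFactors I
    · have hprime : Prime P := prime_of_normalized_factor P hP
      have hdvd : P ^ (normalizedFactors I).count P ∣ I := by
        have h1 : (Multiset.replicate ((normalizedFactors I).count P) P).prod ∣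
            (normalizedFactors I).prod :=
          Multiset.prod_dvd_prod_of_le (Multiset.le_count_iff_replicate_le.1 le_rfl)
        rw [Multiset.prod_replicate, Ideal.prod_normalizedFactors_eq_self hI0] at h1
        exact h1
      have hPb : P ≠ ⊥ := hprime.ne_zero
      have hN1 : Ideal.absNorm P ≠ 1 := by
        intro h
        have htop : P = 1 := by rw [Ideal.absNorm_eq_one_iff.1 h, Ideal.one_eq_top]
        exact hprime.not_isUnit (htop ▸ isUnit_one)
      have hN0 : Ideal.absNorm P ≠ 0 := by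
        rw [Ne, Ideal.absNorm_eq_zero_iff]; exact hPb
      have h2 : 2 ≤ Ideal.absNorm P := by omega
      have hI1 : 0 < Ideal.absNorm I := by
        rcases Nat.eq_zero_or_pos (Ideal.absNorm I) with h | h
        · exact absurd (Ideal.absNorm_eq_zero_iff.1 h) hI0
        · exact h
      have h3 : Ideal.absNorm P ^ (normalizedFactors I).count P ≤ Ideal.absNorm I := by
        rw [← map_pow]
        exact Nat.le_of_dvd hI1 (map_dvd Ideal.absNorm hdvd)
      have h4 : 2 ^ (normalizedFactors I).count P ≤ B :=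
        le_trans (Nat.pow_le_pow_left h2 _) (le_trans h3 hIB)
      exact le_trans (Nat.lt_two_pow_self).le h4
    · rw [Multiset.count_eq_zero_of_notMem hP]; exact Nat.zero_le _
  · intro I hI
    obtain ⟨hI0, hIB⟩ := (hT I).1 hI
    have hsub : (normalizedFactors I).toFinset ⊆ TP := by
      intro P hP
      rw [Multiset.mem_toFinset] at hP
      have hprime : Prime P := prime_of_normalized_factor P hP
      have hPb : P ≠ ⊥ := hprime.ne_zero
      have hI1 : 0 < Ideal.absNorm I := by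
        rcases Nat.eq_zero_or_pos (Ideal.absNorm I) with h | h
        · exact absurd (Ideal.absNorm_eq_zero_iff.1 h) hI0
        · exact h
      have hdvd : P ∣ I := dvd_of_mem_normalizedFactors hP
      exact (hTP P).2 ⟨(hT P).2 ⟨hPb, le_trans (Nat.le_of_dvd hI1 (map_dvd Ideal.absNorm hdvd)) hIB⟩,
        Ideal.isPrime_of_prime hprime⟩
    have h1 := Finset.prod_multiset_count_of_subset (normalizedFactors I) TP hsub
    rw [Ideal.prod_normalizedFactors_eq_self hI0] at h1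
    exact h1

theorem Z3_norm_two {K : Type} [Field K] [NumberField K] {P : Ideal (𝓞 K)} (hP : P.IsPrime)
    (hP0 : P ≠ ⊥) : 2 ≤ Ideal.absNorm P := by
  have h0 : Ideal.absNorm P ≠ 0 := by rw [Ne, Ideal.absNorm_eq_zero_iff]; exact hP0
  have h1 : Ideal.absNorm P ≠ 1 := by
    intro h; exact hP.ne_top (Ideal.absNorm_eq_one_iff.1 h)
  omega

theorem Z3_x {K : Type} [Field K] [NumberField K] {P : Ideal (𝓞 K)} (hP : P.IsPrime)
    (hP0 : P ≠ ⊥) {s : ℝ} (hs : 1 < s) :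
    0 < (Ideal.absNorm P : ℝ) ^ (-s) ∧ (Ideal.absNorm P : ℝ) ^ (-s) ≤ 1 / 2 := by
  have h2 : (2 : ℝ) ≤ (Ideal.absNorm P : ℝ) := by exact_mod_cast Z3_norm_two hP hP0
  refine ⟨Real.rpow_pos_of_pos (by linarith) _, ?_⟩
  calc (Ideal.absNorm P : ℝ) ^ (-s) ≤ (Ideal.absNorm P : ℝ) ^ (-1 : ℝ) :=
        Real.rpow_le_rpow_of_exponent_le (by linarith) (by linarith)
    _ = ((Ideal.absNorm P : ℝ))⁻¹ := Real.rpow_neg_one _
    _ ≤ 1 / 2 := by
        rw [one_div]; exact inv_anti₀ (by norm_num) h2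

theorem sum_le_prod (K : Type) [Field K] [NumberField K] (s : ℝ) (hs : 1 < s) (B : ℕ)
    (T : Finset (Ideal (𝓞 K)))
    (hT : ∀ I, I ∈ T ↔ I ≠ ⊥ ∧ Ideal.absNorm I ≤ B) (TP : Finset (Ideal (𝓞 K)))
    (hTP : ∀ P, P ∈ TP ↔ P ∈ T ∧ P.IsPrime) :
    ∑ I ∈ T, (Ideal.absNorm I : ℝ) ^ (-s) ≤
      ∏ P ∈ TP, (1 - (Ideal.absNorm P : ℝ) ^ (-s))⁻¹ := by
  classical
  obtain ⟨e, he1, he2⟩ := Z3_factors B T hT TP hTP
  -- the exponent vectors
  let φ : Ideal (𝓞 K) → (P : Ideal (𝓞 K)) → P ∈ TP → ℕ := fun I P _ => e I P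
  let g : ((P : Ideal (𝓞 K)) → P ∈ TP → ℕ) → ℝ := fun p =>
    ∏ x ∈ TP.attach, ((Ideal.absNorm x.1 : ℝ) ^ (-s)) ^ p x.1 x.2
  have hval : ∀ I ∈ T, (Ideal.absNorm I : ℝ) ^ (-s) = g (φ I) := by
    intro I hI
    have h1 : (Ideal.absNorm I : ℝ) = ∏ P ∈ TP, (Ideal.absNorm P : ℝ) ^ e I P := by
      conv_lhs => rw [he2 I hI, map_prod]
      push_cast
      exact Finset.prod_congr rfl (fun P _ => by rw [map_pow]; push_cast; rfl)
    rw [h1, ← Real.finsetProd_rpow _ _ (fun P _ => by positivity)]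
    show _ = ∏ x ∈ TP.attach, ((Ideal.absNorm x.1 : ℝ) ^ (-s)) ^ e I x.1
    rw [Finset.prod_attach TP (fun P => ((Ideal.absNorm P : ℝ) ^ (-s)) ^ e I P)]
    refine Finset.prod_congr rfl (fun P _ => ?_)
    rw [← Real.rpow_natCast, ← Real.rpow_natCast, ← Real.rpow_mul (by positivity),
      ← Real.rpow_mul (by positivity), mul_comm]
  have hinj : Set.InjOn φ T := by
    intro I hI J hJ hIJ
    rw [he2 I hI, he2 J hJ]
    refine Finset.prod_congr rfl (fun P hP => ?_)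
    have : e I P = e J P := congrFun (congrFun hIJ P) hP
    rw [this]
  have hsub : T.image φ ⊆ TP.pi (fun _ => Finset.range (B + 1)) := by
    intro p hp
    obtain ⟨I, hI, rfl⟩ := Finset.mem_image.1 hp
    rw [Finset.mem_pi]
    intro P _
    exact Finset.mem_range.2 (Nat.lt_succ_of_le (he1 I hI P))
  calc ∑ I ∈ T, (Ideal.absNorm I : ℝ) ^ (-s) = ∑ I ∈ T, g (φ I) :=
        Finset.sum_congr rfl hval
    _ = ∑ p ∈ T.image φ, g p := (Finset.sum_image hinj).symm
    _ ≤ ∑ p ∈ TP.pi (fun _ => Finset.range (B + 1)), g p :=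
        Finset.sum_le_sum_of_subset_of_nonneg hsub
          (fun p _ _ => Finset.prod_nonneg (fun x _ => by positivity))
    _ = ∏ P ∈ TP, ∑ i ∈ Finset.range (B + 1), ((Ideal.absNorm P : ℝ) ^ (-s)) ^ i := by
        rw [Finset.prod_sum]
    _ ≤ ∏ P ∈ TP, (1 - (Ideal.absNorm P : ℝ) ^ (-s))⁻¹ := by
        refine Finset.prod_le_prod (fun P _ => Finset.sum_nonneg (fun i _ => by positivity))
          (fun P hP => ?_)
        obtain ⟨hPT, hPp⟩ := (hTP P).1 hP
        obtain ⟨hx0, hx1⟩ := Z3_x hPp ((hT P).1 hPT).1 hs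
        set x := (Ideal.absNorm P : ℝ) ^ (-s)
        rw [← tsum_geometric_of_lt_one hx0.le (by linarith)]
        exact (summable_geometric_of_lt_one hx0.le (by linarith)).sum_le_tsum _
          (fun i _ => by positivity)

theorem Z3_exp {x : ℝ} (h0 : 0 < x) (h1 : x ≤ 1 / 2) :
    (1 - x)⁻¹ ≤ Real.exp (x + 2 * x ^ 2) := by
  have h2 : x + 2 * x ^ 2 + 1 ≤ Real.exp (x + 2 * x ^ 2) := Real.add_one_le_exp _
  refine le_trans ?_ h2
  rw [inv_le_iff_one_le_mul₀ (by linarith)]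
  nlinarith [mul_nonneg (sq_nonneg x) (by linarith : (0 : ℝ) ≤ 1 - 2 * x)]

theorem log_le_sum (K : Type) [Field K] [NumberField K] :
    ∃ C : ℝ, ∀ s : ℝ, 1 < s → s < 2 →
      Real.log (∑' I : Ideal (𝓞 K), (Ideal.absNorm I : ℝ) ^ (-s)) ≤
        (∑' P : {P : Ideal (𝓞 K) | P.IsPrime ∧ P ≠ ⊥}, (Ideal.absNorm P.1 : ℝ) ^ (-s)) + C := by
  classical
  refine ⟨2 * ∑' I : Ideal (𝓞 K), (Ideal.absNorm I : ℝ) ^ (-(2 : ℝ)), ?_⟩
  intro s hs1 hs2
  have hsum := summable_ideals K s hs1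
  have hsum2 := summable_ideals K 2 (by norm_num)
  have hpos : 0 < ∑' I : Ideal (𝓞 K), (Ideal.absNorm I : ℝ) ^ (-s) := by
    refine hsum.tsum_pos (fun I => by positivity) ⊤ ?_
    rw [Ideal.absNorm_top]
    simp
  rw [Real.log_le_iff_le_exp hpos]
  refine hsum.tsum_le_of_sum_le (fun U => ?_)
  -- the finite set of the nonzero ideals of norm at most `B`
  let B : ℕ := U.sup (fun I => Ideal.absNorm I)
  have hfin : {I : Ideal (𝓞 K) | I ≠ ⊥ ∧ Ideal.absNorm I ≤ B}.Finite :=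
    (Ideal.finite_setOfPred_absNorm_le (S := 𝓞 K) B).subset (fun I hI => hI.2)
  let T : Finset (Ideal (𝓞 K)) := hfin.toFinset
  have hT : ∀ I, I ∈ T ↔ I ≠ ⊥ ∧ Ideal.absNorm I ≤ B := fun I => by simp [T]
  let TP : Finset (Ideal (𝓞 K)) := T.filter (fun P => P.IsPrime)
  have hTP : ∀ P, P ∈ TP ↔ P ∈ T ∧ P.IsPrime := fun P => by simp [TP]
  have hTPm : ∀ P ∈ TP, P.IsPrime ∧ P ≠ ⊥ := fun P hP =>
    ⟨((hTP P).1 hP).2, ((hT P).1 ((hTP P).1 hP).1).1⟩
  have hU : ∑ I ∈ U, (Ideal.absNorm I : ℝ) ^ (-s) ≤ ∑ I ∈ T, (Ideal.absNorm I : ℝ) ^ (-s) := by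
    have h1 : ∑ I ∈ U, (Ideal.absNorm I : ℝ) ^ (-s) =
        ∑ I ∈ U.filter (fun I => I ≠ ⊥), (Ideal.absNorm I : ℝ) ^ (-s) := by
      rw [Finset.sum_filter]
      refine Finset.sum_congr rfl (fun I _ => ?_)
      split_ifs with h
      · rfl
      · rw [not_not] at h
        rw [h, Ideal.absNorm_bot, Nat.cast_zero, Real.zero_rpow (by linarith)]
    rw [h1]
    refine Finset.sum_le_sum_of_subset_of_nonneg (fun I hI => ?_) (fun I _ _ => by positivity)
    obtain ⟨hI1, hI2⟩ := Finset.mem_filter.1 hI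
    exact (hT I).2 ⟨hI2, Finset.le_sup (f := fun I => Ideal.absNorm I) hI1⟩
  refine le_trans hU (le_trans (sum_le_prod K s hs1 B T hT TP hTP) ?_)
  calc ∏ P ∈ TP, (1 - (Ideal.absNorm P : ℝ) ^ (-s))⁻¹
      ≤ ∏ P ∈ TP, Real.exp ((Ideal.absNorm P : ℝ) ^ (-s) +
          2 * ((Ideal.absNorm P : ℝ) ^ (-s)) ^ 2) := by
        refine Finset.prod_le_prod (fun P hP => ?_) (fun P hP => ?_)
        · obtain ⟨h0, h1⟩ := Z3_x (hTPm P hP).1 (hTPm P hP).2 hs1
          exact inv_nonneg.2 (by linarith)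
        · obtain ⟨h0, h1⟩ := Z3_x (hTPm P hP).1 (hTPm P hP).2 hs1
          exact Z3_exp h0 h1
    _ = Real.exp (∑ P ∈ TP, (Ideal.absNorm P : ℝ) ^ (-s) +
          2 * ∑ P ∈ TP, ((Ideal.absNorm P : ℝ) ^ (-s)) ^ 2) := by
        rw [← Real.exp_sum, Finset.sum_add_distrib, Finset.mul_sum]
    _ ≤ _ := by
        refine Real.exp_le_exp.2 (add_le_add ?_ (mul_le_mul_of_nonneg_left ?_ (by norm_num)))
        · have hs' : Summable (fun P : {P : Ideal (𝓞 K) | P.IsPrime ∧ P ≠ ⊥} =>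
              (Ideal.absNorm P.1 : ℝ) ^ (-s)) := hsum.subtype _
          have h1 : ∑ P ∈ TP, (Ideal.absNorm P : ℝ) ^ (-s) =
              ∑ P ∈ TP.subtype (fun P => P ∈ {P : Ideal (𝓞 K) | P.IsPrime ∧ P ≠ ⊥}),
                (Ideal.absNorm P.1 : ℝ) ^ (-s) := by
            exact (Finset.sum_subtype_of_mem (p := fun P => P ∈ {P : Ideal (𝓞 K) | P.IsPrime ∧ P ≠ ⊥})
              (fun P : Ideal (𝓞 K) => (Ideal.absNorm P : ℝ) ^ (-s)) (fun P hP => hTPm P hP)).symm
          rw [h1]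
          exact hs'.sum_le_tsum _ (fun P _ => by positivity)
        · refine le_trans (Finset.sum_le_sum (fun P hP => ?_))
            (hsum2.sum_le_tsum TP (fun P _ => by positivity))
          have h2 : (2 : ℝ) ≤ (Ideal.absNorm P : ℝ) := by
            exact_mod_cast Z3_norm_two (hTPm P hP).1 (hTPm P hP).2
          rw [← Real.rpow_natCast, ← Real.rpow_mul (by positivity)]
          refine Real.rpow_le_rpow_of_exponent_le (by linarith) ?_
          push_cast
          linarith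

end SC4
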