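import Pool.Agent.MP_c1dca2_ag.SC4.Base

/-!
# [SC4-Z4] Primes of norm a given prime; primes of higher degree

`card_norm_le`: there are at most `n = [K : ℚ]` ideals of norm a given prime `p`
(`n = Module.finrank ℚ K`): each such ideal `P` is prime, contains `p` (`Ideal.absNorm_mem`), and the
product of the distinct primes `P ∋ p` divides `(p)`, whose norm is `p^n`; the norm of the product
of `r` distinct such ideals is `p^r ≤ p^n`.
`card_above_le`: more generally at most `n` nonzero primes contain a given rational prime `p`: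
the product of `r` distinct nonzero primes containing `p` divides `(p)`, each has norm `≥ p`.
`sum_nonprime_le`: let `P ≠ ⊥` be a prime with `absNorm P` not prime. `P` contains a unique
rational prime `p` (`absNorm P = p^f`), `f ≥ 2`, so `(absNorm P)⁻¹ ≤ p^(-2)`. Each `p` arises from at
most `n` of the `P ∈ T`, so the sum is `≤ n Σ_p p^(-2) ≤ n Σ'_{m} m^(-2) = C`.
-/

set_option autoImplicit false

open NumberField

namespace SC4

theorem card_above_le (K : Type) [Field K] [NumberField K] (p : ℕ) (hp : p.Prime)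
    (T : Finset (Ideal (𝓞 K))) (hT : ∀ P ∈ T, P.IsPrime ∧ P ≠ ⊥ ∧ (p : 𝓞 K) ∈ P) :
    T.card ≤ Module.finrank ℚ K := by
  classical
  have hdvd : ∏ P ∈ T, P ∣ Ideal.span {(p : 𝓞 K)} := by
    apply Finset.prod_primes_dvd
    · intro P hP
      obtain ⟨h1, h2, h3⟩ := hT P hP
      exact Ideal.prime_of_isPrime h2 h1
    · intro P hP
      obtain ⟨h1, h2, h3⟩ := hT P hP
      exact Ideal.dvd_span_singleton.mpr h3
  have hn : Ideal.absNorm (Ideal.span {(p : 𝓞 K)}) = p ^ Module.finrank ℚ K := by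
    have := Ideal.absNorm_span_natCast (S := 𝓞 K) p
    rw [this, RingOfIntegers.rank]
  have hd2 : Ideal.absNorm (∏ P ∈ T, P) ∣ p ^ Module.finrank ℚ K := by
    rw [← hn]
    exact Ideal.absNorm_dvd_absNorm_of_le (Ideal.le_of_dvd hdvd)
  have hge : p ^ T.card ≤ Ideal.absNorm (∏ P ∈ T, P) := by
    rw [map_prod]
    calc p ^ T.card = ∏ _P ∈ T, p := by rw [Finset.prod_const]
      _ ≤ ∏ P ∈ T, Ideal.absNorm P := by
        apply Finset.prod_le_prod'
        intro P hP
        obtain ⟨h1, h2, h3⟩ := hT P hP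
        have h4 : Ideal.absNorm P ∣ p ^ Module.finrank ℚ K := by
          rw [← hn]
          exact Ideal.absNorm_dvd_absNorm_of_le
            ((Ideal.span_singleton_le_iff_mem P).mpr h3)
        obtain ⟨k, hk, hk2⟩ := (Nat.dvd_prime_pow hp).mp h4
        have hk0 : k ≠ 0 := by
          rintro rfl
          rw [pow_zero, Ideal.absNorm_eq_one_iff] at hk2
          exact h1.ne_top hk2
        rw [hk2]
        exact Nat.le_self_pow hk0 p
  have hle : p ^ T.card ≤ p ^ Module.finrank ℚ K :=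
    hge.trans (Nat.le_of_dvd (pow_pos hp.pos _) hd2)
  exact (Nat.pow_le_pow_iff_right hp.one_lt).mp hle

theorem card_norm_le (K : Type) [Field K] [NumberField K] (p : ℕ) (hp : p.Prime)
    (T : Finset (Ideal (𝓞 K))) (hT : ∀ P ∈ T, Ideal.absNorm P = p) :
    T.card ≤ Module.finrank ℚ K := by
  apply card_above_le K p hp T
  intro P hP
  have h := hT P hP
  refine ⟨?_, ?_, ?_⟩
  · apply Ideal.isPrime_of_irreducible_absNorm
    rw [h]; exact hp
  · rintro rfl
    rw [Ideal.absNorm_bot] at h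
    exact hp.ne_zero h.symm
  · rw [← h]
    exact Ideal.absNorm_mem P

theorem sum_nonprime_le (K : Type) [Field K] [NumberField K] :
    ∃ C : ℝ, ∀ T : Finset (Ideal (𝓞 K)),
      (∀ P ∈ T, P.IsPrime ∧ P ≠ ⊥ ∧ ¬ (Ideal.absNorm P).Prime) →
      ∑ P ∈ T, ((Ideal.absNorm P : ℝ))⁻¹ ≤ C := by
  classical
  have hsum : Summable (fun m : ℕ => ((m : ℝ) ^ 2)⁻¹) := by
    simpa using (Real.summable_nat_pow_inv (p := 2)).mpr (by norm_num)
  refine ⟨Module.finrank ℚ K * ∑' m : ℕ, ((m : ℝ) ^ 2)⁻¹, ?_⟩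
  intro T hT
  -- the rational prime below
  have key : ∀ P ∈ T, ∃ p : ℕ, p.Prime ∧ (p : 𝓞 K) ∈ P ∧
      ((Ideal.absNorm P : ℝ))⁻¹ ≤ ((p : ℝ) ^ 2)⁻¹ := by
    intro P hP
    obtain ⟨h1, h2, h3⟩ := hT P hP
    haveI := h1
    haveI : NeZero P := ⟨h2⟩
    have hpp := Nat.absNorm_under_prime P
    set p := Ideal.absNorm (Ideal.under ℤ P) with hpdef
    have hspan : Ideal.span {(p : ℤ)} = Ideal.under ℤ P := Int.ideal_span_absNorm_eq_self _
    haveI : P.LiesOver (Ideal.span {(p : ℤ)}) := ⟨hspan⟩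
    have hnorm := Ideal.absNorm_eq_pow_inertiaDeg' (R := 𝓞 K) P hpp
    refine ⟨p, hpp, ?_, ?_⟩
    · have hmem : (p : ℤ) ∈ Ideal.under ℤ P := by
        rw [← hspan]; exact Ideal.mem_span_singleton_self _
      have := Ideal.mem_comap.mp hmem
      simpa using this
    · set f := (Ideal.span {(p : ℤ)}).inertiaDeg' P with hf
      have hf2 : 2 ≤ f := by
        rcases Nat.lt_or_ge f 2 with h | h
        · exfalso
          interval_cases f
          · rw [pow_zero, Ideal.absNorm_eq_one_iff] at hnorm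
            exact h1.ne_top hnorm
          · rw [pow_one] at hnorm
            exact h3 (by rw [hnorm]; exact hpp)
        · exact h
      rw [hnorm]
      have hp1 : (1 : ℝ) ≤ p := by exact_mod_cast hpp.one_lt.le
      have hp0 : (0 : ℝ) < p := by exact_mod_cast hpp.pos
      push_cast
      exact inv_anti₀ (pow_pos hp0 2) (pow_le_pow_right₀ hp1 hf2)
  choose! g hg using key
  calc ∑ P ∈ T, ((Ideal.absNorm P : ℝ))⁻¹ ≤ ∑ P ∈ T, ((g P : ℝ) ^ 2)⁻¹ :=
        Finset.sum_le_sum fun P hP => (hg P hP).2.2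
    _ = ∑ m ∈ T.image g, ∑ P ∈ T with g P = m, ((g P : ℝ) ^ 2)⁻¹ := by
        rw [Finset.sum_fiberwise_of_maps_to]
        intro P hP
        exact Finset.mem_image_of_mem g hP
    _ = ∑ m ∈ T.image g, ((T.filter fun P => g P = m).card : ℝ) * ((m : ℝ) ^ 2)⁻¹ := by
        apply Finset.sum_congr rfl
        intro m _
        rw [Finset.sum_congr rfl (g := fun _ => ((m : ℝ) ^ 2)⁻¹)]
        · rw [Finset.sum_const, nsmul_eq_mul]
        · intro P hP
          rw [(Finset.mem_filter.mp hP).2]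
    _ ≤ ∑ m ∈ T.image g, (Module.finrank ℚ K : ℝ) * ((m : ℝ) ^ 2)⁻¹ := by
        apply Finset.sum_le_sum
        intro m hm
        apply mul_le_mul_of_nonneg_right _ (by positivity)
        obtain ⟨P, hP, hPm⟩ := Finset.mem_image.mp hm
        have hmp : m.Prime := hPm ▸ (hg P hP).1
        exact_mod_cast card_above_le K m hmp _ (by
          intro Q hQ
          obtain ⟨hQT, hQm⟩ := Finset.mem_filter.mp hQ
          refine ⟨(hT Q hQT).1, (hT Q hQT).2.1, ?_⟩
          rw [← hQm]
          exact (hg Q hQT).2.1)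
    _ = (Module.finrank ℚ K : ℝ) * ∑ m ∈ T.image g, ((m : ℝ) ^ 2)⁻¹ := by
        rw [Finset.mul_sum]
    _ ≤ Module.finrank ℚ K * ∑' m : ℕ, ((m : ℝ) ^ 2)⁻¹ := by
        apply mul_le_mul_of_nonneg_left _ (by positivity)
        exact hsum.sum_le_tsum _ (fun m _ => by positivity)

end SC4
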