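import Pool.Agent.MP_c1dca2_ag.SC4.Z2
import Pool.Agent.MP_c1dca2_ag.SC4.Z3
import Pool.Agent.MP_c1dca2_ag.SC4.Z4

/-!
# [SC4-Z5] `Σ N(P)^(-s)` over the degree one primes is `log (1/(s-1)) + O(1)`

Proof. `summable_set`: subtype of a summable nonnegative family (`Summable.subtype`).
Let `A = {P prime, ≠ ⊥}`, split `A = P1 ∪ (A \ P1)`. Upper bound: every finite subset `T` of `P1 K`
satisfies `Σ_T ≤ log Z(s) + C₁` (`sum_le_log`), so `S (P1 K) s ≤ log Z(s) + C₁`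
(`Summable.tsum_le_of_sum_le` / `tsum_le_of_sum_le'`). Lower bound: `log Z(s) ≤ S A s + C₂`
(`log_le_sum`), and `S A s = S (P1 K) s + S (A \ P1 K) s` with
`S (A \ P1 K) s ≤ C₃` because for a finite `T ⊆ A \ P1 K`,
`Σ_T N P^(-s) ≤ Σ_T (N P)⁻¹ ≤ C₃` (`sum_nonprime_le`; `N P ≥ 1`, `s ≥ 1`). Finally `log_zeta`.
`ld_finite`: a finite set of ideals has bounded sum (each term is `≤ 1`).
-/

set_option autoImplicit false

open NumberField

namespace SC4

theorem summable_set {K : Type} [Field K] [NumberField K] (A : Set (Ideal (𝓞 K))) (s : ℝ)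
    (hs : 1 < s) : Summable (fun P : A => (Ideal.absNorm P.1 : ℝ) ^ (-s)) :=
  (summable_ideals K s hs).subtype A

theorem S_nonneg {K : Type} [Field K] [NumberField K] (A : Set (Ideal (𝓞 K))) (s : ℝ) :
    0 ≤ S A s :=
  tsum_nonneg fun _ => Real.rpow_nonneg (Nat.cast_nonneg _) _

lemma Z5_rpow_le_one {K : Type} [Field K] [NumberField K] (P : Ideal (𝓞 K)) (s : ℝ)
    (hs : 1 < s) : (Ideal.absNorm P : ℝ) ^ (-s) ≤ 1 := by
  rcases Nat.eq_zero_or_pos (Ideal.absNorm P) with h | h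
  · rw [h, Nat.cast_zero, Real.zero_rpow (by linarith)]; exact zero_le_one
  · exact Real.rpow_le_one_of_one_le_of_nonpos (by exact_mod_cast h) (by linarith)

theorem S_le_card {K : Type} [Field K] [NumberField K] (A : Set (Ideal (𝓞 K))) (hA : A.Finite)
    (s : ℝ) (hs : 1 < s) : S A s ≤ A.ncard := by
  have := hA.fintype
  unfold S
  rw [tsum_fintype]
  calc ∑ P : A, (Ideal.absNorm P.1 : ℝ) ^ (-s) ≤ ∑ _P : A, (1 : ℝ) :=
        Finset.sum_le_sum fun P _ => Z5_rpow_le_one P.1 s hs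
    _ = (A.ncard : ℝ) := by
        rw [Finset.sum_const, nsmul_eq_mul, mul_one, Finset.card_univ, Set.ncard_eq_toFinset_card',
          Set.toFinset_card]

theorem S_mono {K : Type} [Field K] [NumberField K] {A B : Set (Ideal (𝓞 K))} (h : A ⊆ B)
    (s : ℝ) (hs : 1 < s) : S A s ≤ S B s := by
  unfold S
  rw [tsum_subtype A (fun P : Ideal (𝓞 K) => (Ideal.absNorm P : ℝ) ^ (-s)),
    tsum_subtype B (fun P : Ideal (𝓞 K) => (Ideal.absNorm P : ℝ) ^ (-s))]
  refine Summable.tsum_le_tsum ?_ ((summable_ideals K s hs).indicator A)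
    ((summable_ideals K s hs).indicator B)
  intro P
  exact Set.indicator_le_indicator_of_subset h
    (fun _ => Real.rpow_nonneg (Nat.cast_nonneg _) _) P

lemma Z5_S_le {K : Type} [Field K] [NumberField K] (A : Set (Ideal (𝓞 K))) (s : ℝ)
    (hs : 1 < s) (c : ℝ) (h : ∀ T : Finset (Ideal (𝓞 K)), (∀ P ∈ T, P ∈ A) →
      ∑ P ∈ T, (Ideal.absNorm P : ℝ) ^ (-s) ≤ c) : S A s ≤ c := by
  refine Summable.tsum_le_of_sum_le (summable_set A s hs) fun T => ?_
  have := h (T.map (Function.Embedding.subtype _)) (by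
    intro P hP
    rw [Finset.mem_map] at hP
    obtain ⟨Q, _, rfl⟩ := hP
    exact Q.2)
  rw [Finset.sum_map] at this
  exact this

theorem ld_P1 (K : Type) [Field K] [NumberField K] : LD (P1 K) 1 := by
  obtain ⟨C1, h1⟩ := log_zeta K
  obtain ⟨C2, h2⟩ := sum_le_log K
  obtain ⟨C3, h3⟩ := log_le_sum K
  obtain ⟨C4, h4⟩ := sum_nonprime_le K
  refine ⟨C1 + |C2| + |C3| + |C4|, fun s hs hs2 => ?_⟩
  have e1 := h1 s hs hs2
  have e2 : S (P1 K) s ≤ Real.log (∑' I : Ideal (𝓞 K), (Ideal.absNorm I : ℝ) ^ (-s)) + C2 := by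
    refine Z5_S_le _ s hs _ fun T hT => ?_
    exact h2 s hs hs2 T fun P hP => ⟨P1.isPrime (hT P hP), P1.ne_bot (hT P hP)⟩
  have e3 : Real.log (∑' I : Ideal (𝓞 K), (Ideal.absNorm I : ℝ) ^ (-s)) ≤
      S {P : Ideal (𝓞 K) | P.IsPrime ∧ P ≠ ⊥} s + C3 := h3 s hs hs2
  have e4 : S ({P : Ideal (𝓞 K) | P.IsPrime ∧ P ≠ ⊥} \ P1 K) s ≤ C4 := by
    refine Z5_S_le _ s hs _ fun T hT => ?_
    refine le_trans (Finset.sum_le_sum fun P hP => ?_) (h4 T fun P hP => ?_)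
    · have hN : (1 : ℝ) ≤ (Ideal.absNorm P : ℝ) := by
        have h0 : Ideal.absNorm P ≠ 0 := by
          rw [Ne, Ideal.absNorm_eq_zero_iff]; exact (hT P hP).1.2
        exact_mod_cast Nat.one_le_iff_ne_zero.mpr h0
      rw [← Real.rpow_neg_one]
      exact Real.rpow_le_rpow_of_exponent_le hN (by linarith)
    · exact ⟨(hT P hP).1.1, (hT P hP).1.2, (hT P hP).2⟩
  have e5 : S {P : Ideal (𝓞 K) | P.IsPrime ∧ P ≠ ⊥} s =
      S (P1 K) s + S ({P : Ideal (𝓞 K) | P.IsPrime ∧ P ≠ ⊥} \ P1 K) s := by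
    have hu : {P : Ideal (𝓞 K) | P.IsPrime ∧ P ≠ ⊥} =
        P1 K ∪ ({P : Ideal (𝓞 K) | P.IsPrime ∧ P ≠ ⊥} \ P1 K) := by
      rw [Set.union_sdiff_cancel]
      intro P hP
      exact ⟨P1.isPrime hP, P1.ne_bot hP⟩
    have hd : Disjoint (P1 K) ({P : Ideal (𝓞 K) | P.IsPrime ∧ P ≠ ⊥} \ P1 K) :=
      Set.disjoint_sdiff_right
    unfold S
    conv_lhs => rw [hu]
    exact Summable.tsum_union_disjoint (f := fun P : Ideal (𝓞 K) => (Ideal.absNorm P : ℝ) ^ (-s))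
      hd (summable_set _ s hs) (summable_set _ s hs)
  have a2 := le_abs_self C2
  have a3 := le_abs_self C3
  have a4 := le_abs_self C4
  have b2 := abs_nonneg C2
  have b3 := abs_nonneg C3
  have b4 := abs_nonneg C4
  rw [abs_le] at e1 ⊢
  constructor <;> linarith [e1.1, e1.2]

end SC4
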