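import Mathlib

/-!
# [SC4-X1] Counting integer vectors in a box with prescribed classes

`box_count`: the number of `c ∈ ℤ^ι` with `|c i| ≤ N` and class mod `M` in `A` is at most
`#A ((2N+1)/M + 1)^n`: for each class `a ∈ A`, the `c` with class `a` number
`∏_i #{c ∈ [-N, N] : c ≡ a i mod M} ≤ ((2N+1)/M + 1)^n` (an interval of `2N+1` consecutive integers
contains at most `⌈(2N+1)/M⌉ ≤ (2N+1)/M + 1` elements of a residue class:
`Int.Ioc_filter_modEq_card` / `Int.Ico_filter_modEq_card`, `Fintype.card_piFinset`).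

`crt_count`: for a finite set `T` of primes the map
`(ι → ZMod (∏ p^2)) → ∏_{p ∈ T} (ι → ZMod (p^2))`, `c ↦ (i ↦ c i mod p^2)_p`, is a bijection
(`ZMod.prodEquivPi` with the pairwise coprime `p^2`, or `ZMod.chineseRemainder` and induction on
`T`), so the number of `c` with all components in `Sp p` is `∏ #(Sp p)`.
(`ZMod.cast : ZMod n → ZMod m` is the ring hom `ZMod.castHom` when `m ∣ n`.)
-/

set_option autoImplicit false

namespace SC4

/-- An interval of `2N+1` integers has at most `(2N+1)/M + 1` elements of a class. -/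
theorem X1_class_count (M : ℕ) (hM : 0 < M) (N : ℕ) (a : ZMod M) :
    (((Finset.Icc (-(N : ℤ)) N).filter (fun x : ℤ => (x : ZMod M) = a)).card : ℝ) ≤
      (2 * N + 1) / M + 1 := by
  classical
  haveI : NeZero M := ⟨hM.ne'⟩
  have hset : (Finset.Icc (-(N : ℤ)) N).filter (fun x : ℤ => (x : ZMod M) = a) =
      (Finset.Ico (-(N : ℤ)) (N + 1)).filter (fun x : ℤ => x ≡ (a.val : ℤ) [ZMOD M]) := by
    ext x
    simp only [Finset.mem_filter, Finset.mem_Icc, Finset.mem_Ico]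
    have h1 : ((x : ZMod M) = a) ↔ x ≡ (a.val : ℤ) [ZMOD M] := by
      rw [← ZMod.intCast_eq_intCast_iff]
      simp
    rw [h1]
    constructor
    · rintro ⟨⟨h2, h3⟩, h4⟩
      exact ⟨⟨h2, by omega⟩, h4⟩
    · rintro ⟨⟨h2, h3⟩, h4⟩
      exact ⟨⟨h2, by omega⟩, h4⟩
  rw [hset]
  have hM' : (0 : ℤ) < (M : ℤ) := by exact_mod_cast hM
  have hc := Int.Ico_filter_modEq_card (-(N : ℤ)) ((N : ℤ) + 1) hM' (a.val : ℤ)
  set F := (Finset.Ico (-(N : ℤ)) (N + 1)).filter (fun x : ℤ => x ≡ (a.val : ℤ) [ZMOD M]) with hF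
  have hMq : (0 : ℚ) < (M : ℚ) := by exact_mod_cast hM
  have h5 : ((F.card : ℤ) : ℚ) ≤ (2 * N + 1) / M + 1 := by
    rw [hc]
    push_cast
    apply max_le
    · have h6 := Int.ceil_lt_add_one ((((N : ℤ) + 1 : ℤ) - ((a.val : ℤ)) : ℚ) / ((M : ℤ) : ℚ))
      have h7 := Int.le_ceil (((-(N : ℤ) : ℤ) - ((a.val : ℤ)) : ℚ) / ((M : ℤ) : ℚ))
      push_cast at h6 h7
      have h8 : ((2 : ℚ) * N + 1) / M = ((N : ℚ) + 1 - a.val) / M - (-(N : ℚ) - a.val) / M := by
        field_simp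
        ring
      rw [h8]
      linarith
    · positivity
  have h9 : ((F.card : ℚ)) ≤ (2 * N + 1) / M + 1 := by exact_mod_cast h5
  have h10 : (((F.card : ℚ)) : ℝ) ≤ (((2 * N + 1) / M + 1 : ℚ) : ℝ) := by exact_mod_cast h9
  push_cast at h10
  exact h10

theorem box_count {ι : Type} [Fintype ι] (M : ℕ) (hM : 0 < M) (A : Set (ι → ZMod M)) (N : ℕ) :
    (Nat.card {c : ι → ℤ // (∀ i, |c i| ≤ N) ∧ (fun i => (c i : ZMod M)) ∈ A} : ℝ) ≤
      Nat.card A * ((2 * N + 1) / M + 1) ^ (Fintype.card ι) := by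
  classical
  haveI : NeZero M := ⟨hM.ne'⟩
  haveI : Fintype A := Fintype.ofFinite A
  let s : (ι → ZMod M) → Finset (ι → ℤ) := fun a =>
    Fintype.piFinset (fun i => (Finset.Icc (-(N : ℤ)) N).filter (fun x : ℤ => (x : ZMod M) = a i))
  have h1 : Nat.card {c : ι → ℤ // (∀ i, |c i| ≤ N) ∧ (fun i => (c i : ZMod M)) ∈ A} ≤
      (A.toFinset.biUnion s).card := by
    have h2 : {c : ι → ℤ | (∀ i, |c i| ≤ N) ∧ (fun i => (c i : ZMod M)) ∈ A} ⊆
        ((A.toFinset.biUnion s : Finset (ι → ℤ)) : Set (ι → ℤ)) := by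
      intro c hc
      rw [Finset.mem_coe, Finset.mem_biUnion]
      refine ⟨fun i => (c i : ZMod M), by simpa using hc.2, ?_⟩
      simp only [s, Fintype.mem_piFinset, Finset.mem_filter, Finset.mem_Icc, and_true]
      intro i
      exact abs_le.1 (hc.1 i)
    have h3 := Set.ncard_le_ncard h2 (Finset.finite_toSet _)
    rw [Set.ncard_coe_finset] at h3
    exact h3
  have h4 : ((A.toFinset.biUnion s).card : ℝ) ≤
      ∑ a ∈ A.toFinset, ((2 * N + 1 : ℝ) / M + 1) ^ (Fintype.card ι) := by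
    refine le_trans (Nat.cast_le.2 (Finset.card_biUnion_le (s := A.toFinset) (t := s))) ?_
    push_cast
    refine Finset.sum_le_sum fun a _ => ?_
    simp only [s, Fintype.card_piFinset]
    push_cast
    calc ∏ i : ι, (((Finset.Icc (-(N : ℤ)) N).filter (fun x : ℤ => (x : ZMod M) = a i)).card : ℝ)
        ≤ ∏ i : ι, ((2 * N + 1 : ℝ) / M + 1) :=
          Finset.prod_le_prod (fun i _ => by positivity) (fun i _ => X1_class_count M hM N (a i))
      _ = ((2 * N + 1 : ℝ) / M + 1) ^ (Fintype.card ι) := by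
          rw [Finset.prod_const, Finset.card_univ]
  calc (Nat.card {c : ι → ℤ // (∀ i, |c i| ≤ N) ∧ (fun i => (c i : ZMod M)) ∈ A} : ℝ)
      ≤ ((A.toFinset.biUnion s).card : ℝ) := by exact_mod_cast h1
    _ ≤ _ := h4
    _ = _ := by
      rw [Finset.sum_const, nsmul_eq_mul, Set.toFinset_card, Nat.card_eq_fintype_card]

theorem X1_crt_aux {ι : Type} [Fintype ι] (T : Finset ℕ) (hT : ∀ p ∈ T, p.Prime)
    (Sp : ∀ p : ℕ, Set (ι → ZMod (p ^ 2))) (M : ℕ) (hM : M = ∏ p : T, (p : ℕ) ^ 2) :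
    Nat.card {c : ι → ZMod M //
      ∀ p ∈ T, (fun i => ((c i).cast : ZMod (p ^ 2))) ∈ Sp p} = ∏ p : T, Nat.card (Sp p) := by
  classical
  subst hM
  have hco : Pairwise (Function.onFun Nat.Coprime (fun p : T => (p : ℕ) ^ 2)) := by
    intro p q hpq
    have h1 : (p : ℕ) ≠ q := fun h => hpq (Subtype.ext h)
    exact Nat.Coprime.pow 2 2 ((Nat.coprime_primes (hT p p.2) (hT q q.2)).2 h1)
  let e := ZMod.prodEquivPi (fun p : T => (p : ℕ) ^ 2) hco
  have hdvd : ∀ p : T, (p : ℕ) ^ 2 ∣ ∏ p : T, (p : ℕ) ^ 2 := fun p =>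
    Finset.dvd_prod_of_mem (fun p : T => (p : ℕ) ^ 2) (Finset.mem_univ p)
  have he : ∀ (x : ZMod (∏ p : T, (p : ℕ) ^ 2)) (p : T),
      (x.cast : ZMod ((p : ℕ) ^ 2)) = e x p := by
    intro x p
    have h1 : ZMod.castHom (hdvd p) (ZMod ((p : ℕ) ^ 2)) =
        (Pi.evalRingHom (fun p : T => ZMod ((p : ℕ) ^ 2)) p).comp e.toRingHom :=
      Subsingleton.elim _ _
    have h2 := congrArg (fun f : ZMod (∏ p : T, (p : ℕ) ^ 2) →+* ZMod ((p : ℕ) ^ 2) => f x) h1
    rw [ZMod.castHom_apply] at h2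
    exact h2
  let E : {c : ι → ZMod (∏ p : T, (p : ℕ) ^ 2) //
      ∀ p ∈ T, (fun i => ((c i).cast : ZMod (p ^ 2))) ∈ Sp p} ≃ (∀ p : T, Sp p) :=
    { toFun := fun c p => ⟨fun i => ((c.1 i).cast : ZMod ((p : ℕ) ^ 2)), c.2 p p.2⟩
      invFun := fun g => ⟨fun i => e.symm (fun p => (g p).1 i), by
        intro p hp
        have h1 : (fun i => ((e.symm (fun p => (g p).1 i)).cast : ZMod (p ^ 2))) =
            (g ⟨p, hp⟩).1 := by
          funext i
          have h2 := he (e.symm (fun p => (g p).1 i)) ⟨p, hp⟩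
          simp only [RingEquiv.apply_symm_apply] at h2
          exact h2
        rw [h1]
        exact (g ⟨p, hp⟩).2⟩
      left_inv := by
        intro c
        apply Subtype.ext
        funext i
        show e.symm (fun p => ((c.1 i).cast : ZMod ((p : ℕ) ^ 2))) = c.1 i
        rw [RingEquiv.symm_apply_eq]
        funext p
        exact he (c.1 i) p
      right_inv := by
        intro g
        funext p
        apply Subtype.ext
        funext i
        show ((e.symm (fun p => (g p).1 i)).cast : ZMod ((p : ℕ) ^ 2)) = (g p).1 i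
        rw [he, RingEquiv.apply_symm_apply] }
  rw [Nat.card_congr E, Nat.card_pi]

theorem crt_count {ι : Type} [Fintype ι] (T : Finset ℕ) (hT : ∀ p ∈ T, p.Prime)
    (Sp : ∀ p : ℕ, Set (ι → ZMod (p ^ 2))) :
    Nat.card {c : ι → ZMod (∏ p ∈ T, p ^ 2) //
      ∀ p ∈ T, (fun i => ((c i).cast : ZMod (p ^ 2))) ∈ Sp p} = ∏ p ∈ T, Nat.card (Sp p) := by
  rw [X1_crt_aux T hT Sp (∏ p ∈ T, p ^ 2) (Finset.prod_coe_sort T (fun p => p ^ 2)).symm]
  exact Finset.prod_coe_sort T (fun p => Nat.card (Sp p))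

end SC4
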